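import Pool.Agent.Helper5.SqH.FamG

/-!
The remaining families and the proof of `SpecH`.
-/

open Set Complex Filter Topology

namespace Pool.Agent.Helper5.SqH
open Pool.Agent.Helper27.Sq

variable {a b c : ℚ}

theorem dist_of_sq {z w : ℂ} {r : ℝ} (hr : 0 ≤ r) (h : dist z w ^ 2 = r ^ 2) : dist z w = r :=
  (pow_left_inj₀ dist_nonneg hr two_ne_zero).1 h

theorem ttG1 (ha : 0 < a) (hb : 0 < b) (hc0 : 0 < c) (hc : c^2 = a^2 + a*b + b^2) :
    TT (rs (aG a b c)) (rs ![3 * a * (a + b), c * (2*a + b), c^2]) := by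
  intro P hP ρ hρ hs
  have h0 : side P 0 = ρ * (3 * a * (a + b)) := by rw [hs]; simp [rs]
  have h1 : side P 1 = ρ * (c * (2*a + b)) := by rw [hs]; simp [rs]
  have h2 : side P 2 = ρ * c^2 := by rw [hs]; simp [rs]
  obtain ⟨s0, s1, s2⟩ := side_eq3 P
  have ha' : (0:ℝ) < a := by exact_mod_cast ha
  have hb' : (0:ℝ) < b := by exact_mod_cast hb
  have hc0' : (0:ℝ) < c := by exact_mod_cast hc0
  have hρ' : (0:ℝ) < ρ := by exact_mod_cast hρ
  have hc' : (c:ℝ)^2 = a^2 + a*b + b^2 := by exact_mod_cast hc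
  obtain ⟨t, ht⟩ : ∃ t : ℝ, t = c^2 / (3 * (a + b)^2) := ⟨_, rfl⟩
  have ht0 : 0 < t := by rw [ht]; positivity
  have ht1 : t < 1 := by
    rw [ht, div_lt_one (by positivity)]
    nlinarith [mul_pos ha' hb']
  obtain ⟨k1, k2, k3, k4, k5, k6, k7⟩ := cevian hP ht0 ht1 rfl
  set D : ℂ := ((1 - t : ℝ):ℂ) * P 1 + (t:ℝ) * P 2 with hD
  have d0 : dist (P 0) D = ρ * (c * b * (2*a + b) / (a + b)) := by
    apply dist_of_sq (by positivity)
    rw [k7, h0, h1, h2, ht]
    have e4 : (c:ℝ)^4 = (a^2 + a*b + b^2)^2 := by rw [← hc']; ring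
    field_simp
    ring_nf
    simp only [e4, hc']
    ring
  have d1 : dist (P 1) D = ρ * (a * c^2 / (a + b)) := by
    rw [k5, h0, ht]; field_simp
  have d2 : dist D (P 2) = ρ * (a * (2*a + b) * (a + 2*b) / (a + b)) := by
    rw [k6, h0, ht, hc']; field_simp; ring
  rw [k1]
  refine Tl.union ?_ ?_ k2
  · -- G3 with U = D, V = P 1, W = P 0
    refine (ttG3 ha hb hc0 hc).permx (Equiv.refl _) (a := rs (aG a b c))
      (x := rs ![c * (a + b), b * (2*a + b), a * c]) |> fun H => ?_
    have H2 := H ![D, P 1, P 0] ((affineIndependent_equiv (Equiv.swap 0 2)).2 k3 |> fun h => by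
      convert h using 1
      funext j; fin_cases j <;> simp [Equiv.swap_apply_def]) (ρ * c / (a + b)) (by positivity) (by
      intro k
      rw [side3]
      fin_cases k
      · simp only [Fin.zero_eta, Matrix.cons_val_zero]
        rw [dist_comm, ← s2, h2]
        simp [rs]; field_simp
      · simp only [Fin.mk_one, Matrix.cons_val_one]
        rw [d0]
        simp [rs]; field_simp
      · simp only [Fin.reduceFinMk, Matrix.cons_val]
        rw [dist_comm, d1]
        simp [rs]; field_simp)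
    rw [← tri_perm _ (Equiv.swap 0 2)] at H2
    convert H2 using 2
    funext j; fin_cases j <;> simp [Equiv.swap_apply_def]
  · -- G3' with U = D, V = P 0, W = P 2
    have H2 := (ttG3' ha hb hc0 hc) ![D, P 0, P 2] ((affineIndependent_equiv (Equiv.swap 0 1)).2 k4
      |> fun h => by
      convert h using 1
      funext j; fin_cases j <;> simp [Equiv.swap_apply_def]) (ρ * (2*a + b) / (a + b))
      (by positivity) (by
      intro k
      rw [side3]
      fin_cases k
      · simp only [Fin.zero_eta, Matrix.cons_val_zero]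
        rw [dist_comm, ← s1, h1]
        simp [rs]; field_simp
      · simp only [Fin.mk_one, Matrix.cons_val_one]
        rw [dist_comm, d2]
        simp [rs]; field_simp
      · simp only [Fin.reduceFinMk, Matrix.cons_val]
        rw [dist_comm, d0]
        simp [rs]; field_simp)
    rw [← tri_perm _ (Equiv.swap 0 1)] at H2
    convert H2 using 2
    funext j; fin_cases j <;> simp [Equiv.swap_apply_def]

theorem ttG4 (ha : 0 < a) (hb : 0 < b) (hc0 : 0 < c) (hc : c^2 = a^2 + a*b + b^2) :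
    TT (rs (aG a b c)) (rs ![a * (a + 2*b), b * (2*a + b), c^2]) := by
  apply TT.permx (Equiv.swap 0 1)
  intro P hP ρ hρ hs
  have h0 : side P 0 = ρ * (b * (2*a + b)) := by rw [hs]; simp [rs]
  have h1 : side P 1 = ρ * (a * (a + 2*b)) := by rw [hs]; simp [rs]
  have h2 : side P 2 = ρ * c^2 := by
    rw [hs]
    have : (Equiv.swap (0:Fin 3) 1) 2 = 2 := by decide
    simp only [Function.comp_apply, this]
    simp [rs]
  obtain ⟨s0, s1, s2⟩ := side_eq3 P
  have ha' : (0:ℝ) < a := by exact_mod_cast ha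
  have hb' : (0:ℝ) < b := by exact_mod_cast hb
  have hc0' : (0:ℝ) < c := by exact_mod_cast hc0
  have hρ' : (0:ℝ) < ρ := by exact_mod_cast hρ
  have hc' : (c:ℝ)^2 = a^2 + a*b + b^2 := by exact_mod_cast hc
  obtain ⟨t, ht⟩ : ∃ t : ℝ, t = c^2 / ((a + b) * (2*a + b)) := ⟨_, rfl⟩
  have ht0 : 0 < t := by rw [ht]; positivity
  have ht1 : t < 1 := by
    rw [ht, div_lt_one (by positivity)]
    nlinarith [mul_pos ha' hb']
  obtain ⟨k1, k2, k3, k4, k5, k6, k7⟩ := cevian hP ht0 ht1 rfl
  set D : ℂ := ((1 - t : ℝ):ℂ) * P 1 + (t:ℝ) * P 2 with hD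
  have d0 : dist (P 0) D = ρ * (c * a * (a + 2*b) / (a + b)) := by
    apply dist_of_sq (by positivity)
    rw [k7, h0, h1, h2, ht]
    have e4 : (c:ℝ)^4 = (a^2 + a*b + b^2)^2 := by rw [← hc']; ring
    field_simp
    ring_nf
    simp only [e4, hc']
    ring
  have d1 : dist (P 1) D = ρ * (b * c^2 / (a + b)) := by
    rw [k5, h0, ht]; field_simp
  have d2 : dist D (P 2) = ρ * (a * b * (a + 2*b) / (a + b)) := by
    rw [k6, h0, ht, hc']; field_simp; ring
  rw [k1]
  refine Tl.union ?_ ?_ k2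
  · -- G3' with U = D, V = P 1, W = P 0
    have H2 := (ttG3' ha hb hc0 hc) ![D, P 1, P 0] ((affineIndependent_equiv (Equiv.swap 0 2)).2 k3
      |> fun h => by
      convert h using 1
      funext j; fin_cases j <;> simp [Equiv.swap_apply_def]) (ρ * c / (a + b)) (by positivity) (by
      intro k
      rw [side3]
      fin_cases k
      · simp only [Fin.zero_eta, Matrix.cons_val_zero]
        rw [dist_comm, ← s2, h2]
        simp [rs]; field_simp
      · simp only [Fin.mk_one, Matrix.cons_val_one]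
        rw [d0]
        simp [rs]; field_simp
      · simp only [Fin.reduceFinMk, Matrix.cons_val]
        rw [dist_comm, d1]
        simp [rs]; field_simp)
    rw [← tri_perm _ (Equiv.swap 0 2)] at H2
    convert H2 using 2
    funext j; fin_cases j <;> simp [Equiv.swap_apply_def]
  · -- G2 with U = D, V = P 2, W = P 0
    have H2 := (ttG2 ha hb hc0 hc) ![D, P 2, P 0] ((affineIndependent_equiv (finRotate 3)).2 k4
      |> fun h => by
      convert h using 1
      funext j; fin_cases j <;> rfl) (ρ * a * (a + 2*b) / (a + b))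
      (by positivity) (by
      intro k
      rw [side3]
      fin_cases k
      · simp only [Fin.zero_eta, Matrix.cons_val_zero]
        rw [← s1, h1]
        simp [rs]; field_simp
      · simp only [Fin.mk_one, Matrix.cons_val_one]
        rw [d0]
        simp [rs]; field_simp
      · simp only [Fin.reduceFinMk, Matrix.cons_val]
        rw [d2]
        simp [rs]; field_simp)
    rw [← tri_perm _ (finRotate 3).symm] at H2
    convert H2 using 2
    funext j; fin_cases j <;> rfl

/-! ### from `TT` to `CanCut` -/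

theorem tri_scale (r : ℝ) (P : Fin 3 → ℂ) : tri (fun k => (r:ℂ) * P k) = (fun z => (r:ℂ) * z) '' tri P := by
  unfold tri
  have h1 : range (fun k => (r:ℂ) * P k) = (LinearMap.lsmul ℝ ℂ r) '' range P := by
    rw [← range_comp]; rfl
  rw [h1, ← LinearMap.image_convexHull]
  rfl

theorem canCut_scale {P : Fin 3 → ℂ} {n : ℕ} (h : CanCut P n) {r : ℝ} (hr : 0 < r) :
    CanCut (fun k => (r:ℂ) * P k) n := by
  obtain ⟨Q, h1, h2, h3, h4⟩ := h
  have hrc : (r:ℂ) ≠ 0 := by exact_mod_cast hr.ne'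
  have hinj : Function.Injective (fun z : ℂ => (r:ℂ) * z) := mul_right_injective₀ hrc
  refine ⟨fun i k => (r:ℂ) * Q i k, ?_, ?_, ?_, ?_⟩
  · intro i
    exact (h1 i).map' (LinearMap.lsmul ℝ ℂ r).toAffineMap hinj
  · intro i j
    have h5 := h2 i j
    rw [congruent_iff_dist_eq] at h5 ⊢
    intro k l
    simp only [dist_eq_norm, ← mul_sub, norm_mul]
    have := h5 k l
    rw [dist_eq_norm, dist_eq_norm] at this
    rw [this]
  · simp only [tri_scale]
    rw [← image_iUnion, h3]
  · intro i j hij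
    have h5 := h4 hij
    simp only [tri_scale]
    have h6 : ∀ S : Set ℂ, interior ((fun z => (r:ℂ) * z) '' S) = (fun z => (r:ℂ) * z) '' interior S :=
      fun S => ((Homeomorph.mulLeft₀ (r:ℂ) hrc).image_interior S).symm
    rw [h6, h6]
    exact (disjoint_image_iff hinj).2 h5

theorem side_scale {r : ℝ} (hr : 0 < r) (P : Fin 3 → ℂ) (k : Fin 3) :
    side (fun k => (r:ℂ) * P k) k = r * side P k := by
  unfold side
  rw [dist_eq_norm, dist_eq_norm, ← mul_sub, norm_mul, Complex.norm_real, Real.norm_eq_abs,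
    abs_of_pos hr]

theorem ai_scale {r : ℝ} (hr : 0 < r) {P : Fin 3 → ℂ} (hP : AffineIndependent ℝ P) :
    AffineIndependent ℝ (fun k => (r:ℂ) * P k) := by
  have hrc : (r:ℂ) ≠ 0 := by exact_mod_cast hr.ne'
  exact hP.map' (LinearMap.lsmul ℝ ℂ r).toAffineMap (mul_right_injective₀ hrc)

theorem fin_of_TT {a x : Fin 3 → ℝ} (hTT : TT a x) {P : Fin 3 → ℂ} (hP : AffineIndependent ℝ P)
    {r : ℝ} (hr : 0 < r) (hs : ∀ k, side P k = r * x k) {R : ℝ} (hR : 0 < R)
    (hher : her x = R^2 * her a) : ∃ n k : ℕ, 0 < k ∧ CanCut P n ∧ (n:ℝ) = R * k^2 := by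
  have hri : 0 < r⁻¹ := inv_pos.2 hr
  set P' : Fin 3 → ℂ := fun k => ((r⁻¹ : ℝ):ℂ) * P k with hP'
  have hai : AffineIndependent ℝ P' := ai_scale hri hP
  have hside : ∀ k, side P' k = x k := by
    intro k
    rw [hP', side_scale hri, hs]
    field_simp
  obtain ⟨k0, hk0, H⟩ := hTT P' hai 1 one_pos (by intro k; rw [hside]; simp)
  obtain ⟨n, hn, hn2⟩ := (H k0 hk0 dvd_rfl).canCut hai
  have hk0' : (0:ℝ) < k0 := by exact_mod_cast hk0
  refine ⟨n, k0, hk0, ?_, ?_⟩
  · have h1 := canCut_scale hn hr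
    have h2 : (fun k => (r:ℂ) * P' k) = P := by
      funext k
      rw [hP']
      have : (r:ℂ) ≠ 0 := by exact_mod_cast hr.ne'
      push_cast
      field_simp
    rwa [h2] at h1
  · have h1 : side P' = x := funext hside
    have h2 : her (fun j => a j / k0) = (1/(k0:ℝ))^4 * her a := by
      rw [← her_smul]; congr 1; funext j; ring
    rw [h1, h2, hher] at hn2
    have h3 : 0 < her x := by
      rw [← h1, ← ar_her]
      have := ar_pos hai
      positivity
    have h4 : her a ≠ 0 := by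
      rw [hher] at h3
      intro h5; rw [h5] at h3; simp at h3
    have h5 : (R * k0^2)^2 = (n:ℝ)^2 := by
      have : R^2 * her a * k0^4 = (n:ℝ)^2 * her a := by
        rw [hn2]; field_simp
      have : (R^2 * k0^4) * her a = (n:ℝ)^2 * her a := by linarith
      have := mul_right_cancel₀ h4 this
      rw [← this]; ring
    exact ((pow_left_inj₀ (by positivity) (by positivity) two_ne_zero).1 h5).symm

theorem not_sq_rat {R : ℚ} (hR : ¬ IsSquare R) {n k : ℕ} (hk : 0 < k)
    (h : (n:ℝ) = (R:ℝ) * k^2) : ¬ IsSquare n := by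
  rintro ⟨m, hm⟩
  apply hR
  refine ⟨m / k, ?_⟩
  have hk' : (k:ℚ) ≠ 0 := by exact_mod_cast hk.ne'
  have h1 : (n:ℚ) = R * k^2 := by exact_mod_cast h
  rw [hm] at h1
  push_cast at h1
  field_simp
  linarith

theorem not_sq_nat {R : ℕ} (hR : ¬ IsSquare R) : ¬ IsSquare (R:ℚ) := by
  rwa [Rat.isSquare_natCast_iff]

/-! ### the two remaining triangles -/

theorem canCut_R {p q : ℕ} (hp : 0 < p) (hq : 0 < q) {P : Fin 3 → ℂ} (hP : AffineIndependent ℝ P)
    {r : ℝ} (hr : 0 < r) (h0 : side P 0 = r * p) (h1 : side P 1 = r * q)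
    (h2 : side P 2 = r * √((p:ℝ)^2 + q^2)) : CanCut P (p^2 + q^2) := by
  have hp' : (0:ℝ) < p := by exact_mod_cast hp
  have hq' : (0:ℝ) < q := by exact_mod_cast hq
  obtain ⟨N, hN⟩ : ∃ N : ℝ, N = √((p:ℝ)^2 + q^2) := ⟨_, rfl⟩
  have hN0 : 0 < N := by rw [hN]; positivity
  have hN2 : N^2 = (p:ℝ)^2 + q^2 := by rw [hN]; exact Real.sq_sqrt (by positivity)
  rw [← hN] at h2
  -- relabel: vertex with the right angle first
  have hP2 : AffineIndependent ℝ (P ∘ (finRotate 3).symm) :=
    (affineIndependent_equiv (finRotate 3).symm).2 hP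
  have g0 : side (P ∘ (finRotate 3).symm) 0 = r * N := by rw [side_perm]; exact h2
  have g1 : side (P ∘ (finRotate 3).symm) 1 = r * p := by rw [side_perm]; exact h0
  have g2 : side (P ∘ (finRotate 3).symm) 2 = r * q := by rw [side_perm]; exact h1
  obtain ⟨t, ht⟩ : ∃ t : ℝ, t = q^2 / N^2 := ⟨_, rfl⟩
  have ht0 : 0 < t := by rw [ht]; positivity
  have ht1 : t < 1 := by
    rw [ht, div_lt_one (by positivity), hN2]
    have : 0 < (p:ℝ)^2 := by positivity
    linarith
  set P' := P ∘ (finRotate 3).symm with hP'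
  obtain ⟨k1, k2, k3, k4, k5, k6, k7⟩ := cevian hP2 ht0 ht1 rfl
  set D : ℂ := ((1 - t : ℝ):ℂ) * P' 1 + (t:ℝ) * P' 2 with hD
  obtain ⟨s0, s1, s2⟩ := side_eq3 P'
  have d1 : dist (P' 1) D = r * (q^2/N) := by rw [k5, g0, ht]; field_simp
  have d2 : dist D (P' 2) = r * (p^2/N) := by
    rw [k6, g0, ht]
    have : (1 - (q:ℝ)^2 / N^2) = p^2/N^2 := by
      rw [eq_div_iff (by positivity), sub_mul, div_mul_cancel₀ _ (by positivity), hN2]; ring
    rw [this]; field_simp
  have d0 : dist (P' 0) D = r * (p * q / N) := by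
    apply dist_of_sq (by positivity)
    rw [k7, g0, g1, g2, ht]
    have : (1 - (q:ℝ)^2 / N^2) = p^2/N^2 := by
      rw [eq_div_iff (by positivity), sub_mul, div_mul_cancel₀ _ (by positivity), hN2]; ring
    rw [this]
    field_simp
    norm_num
  -- the tile
  have T1 : TileBy ![r * (p/N), r * (q/N), r] (tri ![P' 0, P' 1, D]) := by
    have h := sq_tile k3 hq
    have e1 : (fun k => side ![P' 0, P' 1, D] k / (q:ℝ)) = ![r * (q/N), r * (p/N), r] := by
      rw [side3]
      funext k
      fin_cases k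
      · simp only [Fin.zero_eta, Matrix.cons_val_zero]; rw [d1]; field_simp
      · simp only [Fin.mk_one, Matrix.cons_val_one, Matrix.cons_val_zero]
        rw [dist_comm, d0]; field_simp
      · simp only [Fin.reduceFinMk, Matrix.cons_val]; rw [← s2, g2]; field_simp
    rw [e1] at h
    apply TileBy.perm (Equiv.swap 0 1)
    convert h using 1
    funext k; fin_cases k
    · simp
    · simp
    · simp [Equiv.swap_apply_def]
  have T2 : TileBy ![r * (p/N), r * (q/N), r] (tri ![P' 0, D, P' 2]) := by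
    have h := sq_tile k4 hp
    have e1 : (fun k => side ![P' 0, D, P' 2] k / (p:ℝ)) = ![r * (p/N), r, r * (q/N)] := by
      rw [side3]
      funext k
      fin_cases k
      · simp only [Fin.zero_eta, Matrix.cons_val_zero]; rw [d2]; field_simp
      · simp only [Fin.mk_one, Matrix.cons_val_one, Matrix.cons_val_zero]
        rw [← s1, g1]; field_simp
      · simp only [Fin.reduceFinMk, Matrix.cons_val]; rw [d0]; field_simp
    rw [e1] at h
    apply TileBy.perm (Equiv.swap 1 2)
    convert h using 1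
    funext k; fin_cases k
    · simp [Equiv.swap_apply_def]
    · simp
    · simp
  have T3 := T1.union T2 k2
  rw [← k1, hP', tri_perm] at T3
  obtain ⟨n, hn, hn2⟩ := T3.canCut hP
  have e2 : side P = fun j => N * (![r * (p/N), r * (q/N), r]) j := by
    funext j
    fin_cases j
    · simp only [Fin.zero_eta, Matrix.cons_val_zero]; rw [h0]; field_simp
    · simp only [Fin.mk_one, Matrix.cons_val_one, Matrix.cons_val_zero]; rw [h1]; field_simp
    · simp only [Fin.reduceFinMk, Matrix.cons_val]; rw [h2]; ring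
  have h3 : 0 < her (side P) := by
    rw [← ar_her]
    have := ar_pos hP
    positivity
  rw [e2, her_smul] at hn2 h3
  have h4 : her ![r * (p/N), r * (q/N), r] ≠ 0 := by
    intro h5; rw [h5] at h3; simp at h3
  have h5 := mul_right_cancel₀ h4 hn2
  have h6 : (n:ℝ) = N^2 := by
    have : (N^2)^2 = (n:ℝ)^2 := by rw [← h5]; ring
    exact ((pow_left_inj₀ (by positivity) (by positivity) two_ne_zero).1 this).symm
  rw [hN2] at h6
  have : n = p^2 + q^2 := by exact_mod_cast h6
  rwa [this] at hn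

theorem canCut_S {P : Fin 3 → ℂ} (hP : AffineIndependent ℝ P)
    {r : ℝ} (hr : 0 < r) (h0 : side P 0 = r) (h1 : side P 1 = r * √3)
    (h2 : side P 2 = r * 2) : CanCut P 3 := by
  obtain ⟨w, hw⟩ : ∃ w : ℝ, w = √3 := ⟨_, rfl⟩
  have hw0 : 0 < w := by rw [hw]; positivity
  have hw2 : w^2 = 3 := by rw [hw]; exact Real.sq_sqrt (by norm_num)
  rw [← hw] at h1
  -- cevian from the vertex `P 1` (60 degrees) to the side `P 2, P 0`
  have hP2 : AffineIndependent ℝ (P ∘ (finRotate 3)) := (affineIndependent_equiv (finRotate 3)).2 hP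
  have g0 : side (P ∘ (finRotate 3)) 0 = r * w := by rw [side_perm]; exact h1
  have g1 : side (P ∘ (finRotate 3)) 1 = r * 2 := by rw [side_perm]; exact h2
  have g2 : side (P ∘ (finRotate 3)) 2 = r := by rw [side_perm]; exact h0
  set P' := P ∘ (finRotate 3) with hP'
  obtain ⟨k1, k2, k3, k4, k5, k6, k7⟩ := cevian hP2 (t := 1/3) (by norm_num) (by norm_num) rfl
  set D : ℂ := ((1 - 1/3 : ℝ):ℂ) * P' 1 + (1/3:ℝ) * P' 2 with hD
  obtain ⟨s0, s1, s2⟩ := side_eq3 P'
  have d1 : dist (P' 1) D = r * (w/3) := by rw [k5, g0]; ring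
  have d2 : dist D (P' 2) = r * (2*w/3) := by rw [k6, g0]; ring
  have d0 : dist (P' 0) D = r * (2*w/3) := by
    apply dist_of_sq (by positivity)
    rw [k7, g0, g1, g2]
    linear_combination (-(2:ℝ)/3*r^2 + 0) * hw2 + 0 * hw2 + (0:ℝ) * hw2
  -- second cevian: from `D` to the midpoint of `P' 0, P' 2`
  have hP3 : AffineIndependent ℝ ![D, P' 2, P' 0] := by
    have := (affineIndependent_equiv (finRotate 3)).2 k4
    convert this using 1
    funext j; fin_cases j <;> rfl
  obtain ⟨l1, l2, l3, l4, l5, l6, l7⟩ := cevian hP3 (t := 1/2) (by norm_num) (by norm_num) rfl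
  simp only [Matrix.cons_val_zero, Matrix.cons_val_one, Matrix.cons_val] at l1 l2 l3 l4 l5 l6 l7
  set M : ℂ := ((1 - 1/2 : ℝ):ℂ) * P' 2 + (1/2:ℝ) * P' 0 with hM
  have q0 : side ![D, P' 2, P' 0] 0 = r * 2 := by
    rw [side3]; simp only [Matrix.cons_val_zero]; rw [← s1, g1]
  have q1 : side ![D, P' 2, P' 0] 1 = r * (2*w/3) := by
    rw [side3]; simp only [Matrix.cons_val_one, Matrix.cons_val_zero]; rw [d0]
  have q2 : side ![D, P' 2, P' 0] 2 = r * (2*w/3) := by
    rw [side3]; simp only [Matrix.cons_val]; rw [d2]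
  rw [q0] at l5 l6
  rw [q0, q1, q2] at l7
  have m0 : dist D M = r * (w/3) := by
    apply dist_of_sq (by positivity)
    rw [l7]
    linear_combination (1:ℝ)/3*r^2 * hw2
  have T1 : TileBy ![r * (w/3), r, r * (2*w/3)] (tri ![P' 0, P' 1, D]) := by
    have h := sq_tile k3 (m := 1) one_pos
    have e1 : (fun k => side ![P' 0, P' 1, D] k / ((1:ℕ):ℝ)) = ![r * (w/3), r * (2*w/3), r] := by
      rw [side3]
      funext k
      fin_cases k
      · simp only [Fin.zero_eta, Matrix.cons_val_zero]; rw [d1]; simp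
      · simp only [Fin.mk_one, Matrix.cons_val_one, Matrix.cons_val_zero]
        rw [dist_comm, d0]; simp
      · simp only [Fin.reduceFinMk, Matrix.cons_val]; rw [← s2, g2]; simp
    rw [e1] at h
    apply TileBy.perm (Equiv.swap 1 2)
    convert h using 1
    funext k; fin_cases k
    · simp [Equiv.swap_apply_def]
    · simp
    · simp
  have T2 : TileBy ![r * (w/3), r, r * (2*w/3)] (tri ![D, P' 2, M]) := by
    have h := sq_tile l3 (m := 1) one_pos
    have e1 : (fun k => side ![D, P' 2, M] k / ((1:ℕ):ℝ)) = ![r, r * (w/3), r * (2*w/3)] := by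
      rw [side3]
      funext k
      fin_cases k
      · simp only [Fin.zero_eta, Matrix.cons_val_zero]; rw [l5]; simp; ring
      · simp only [Fin.mk_one, Matrix.cons_val_one, Matrix.cons_val_zero]
        rw [dist_comm, m0]; simp
      · simp only [Fin.reduceFinMk, Matrix.cons_val]; rw [d2]; simp
    rw [e1] at h
    apply TileBy.perm (Equiv.swap 0 1)
    convert h using 1
    funext k; fin_cases k
    · simp
    · simp
    · simp [Equiv.swap_apply_def]
  have T3 : TileBy ![r * (w/3), r, r * (2*w/3)] (tri ![D, M, P' 0]) := by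
    have h := sq_tile l4 (m := 1) one_pos
    have e1 : (fun k => side ![D, M, P' 0] k / ((1:ℕ):ℝ)) = ![r, r * (2*w/3), r * (w/3)] := by
      rw [side3]
      funext k
      fin_cases k
      · simp only [Fin.zero_eta, Matrix.cons_val_zero]; rw [l6]; simp; ring
      · simp only [Fin.mk_one, Matrix.cons_val_one, Matrix.cons_val_zero]
        rw [dist_comm, dist_comm, d0]; simp
      · simp only [Fin.reduceFinMk, Matrix.cons_val]; rw [m0]; simp
    rw [e1] at h
    apply TileBy.perm (finRotate 3)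
    convert h using 1
    funext k; fin_cases k <;> rfl
  have T23 := T2.union T3 l2
  rw [← l1] at T23
  have e5 : tri ![D, P' 2, P' 0] = tri ![P' 0, D, P' 2] := by
    rw [← tri_perm ![P' 0, D, P' 2] (finRotate 3)]
    congr 1
    funext j; fin_cases j <;> rfl
  rw [e5] at T23
  have T := T1.union T23 k2
  rw [← k1, hP', tri_perm] at T
  obtain ⟨n, hn, hn2⟩ := T.canCut hP
  have e2 : side P = fun j => w * (![r * (w/3), r, r * (2*w/3)]) j := by
    funext j
    fin_cases j
    · simp only [Fin.zero_eta, Matrix.cons_val_zero]; rw [h0]; linear_combination (-r/3) * hw2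
    · simp only [Fin.mk_one, Matrix.cons_val_one, Matrix.cons_val_zero]; rw [h1]; ring
    · simp only [Fin.reduceFinMk, Matrix.cons_val]; rw [h2]; linear_combination (-2*r/3) * hw2
  have h3 : 0 < her (side P) := by
    rw [← ar_her]
    have := ar_pos hP
    positivity
  rw [e2, her_smul] at hn2 h3
  have h4 : her ![r * (w/3), r, r * (2*w/3)] ≠ 0 := by
    intro h5; rw [h5] at h3; simp at h3
  have h5 := mul_right_cancel₀ h4 hn2
  have h6 : (n:ℝ) = w^2 := by
    have : (w^2)^2 = (n:ℝ)^2 := by rw [← h5]; ring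
    exact ((pow_left_inj₀ (by positivity) (by positivity) two_ne_zero).1 this).symm
  rw [hw2] at h6
  have : n = 3 := by exact_mod_cast h6
  rwa [this] at hn

theorem not_sq_three : ¬ IsSquare (3:ℕ) := by
  rintro ⟨m, hm⟩
  have : m ≤ 1 ∨ 2 ≤ m := by omega
  rcases this with h | h
  · interval_cases m <;> omega
  · nlinarith

/-- **module H** -/
theorem specH : SpecH := by
  intro x hx P hP r hr hs
  rcases hx with ⟨p, q, hp, hq, hsq, rfl⟩ | rfl | ⟨s, h0, h1, ⟨hsq, rfl⟩ | ⟨hsq, rfl⟩⟩ |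
    ⟨a, b, c, ha, hb, hc, ⟨hsq, rfl⟩ | ⟨hsq, rfl⟩ | ⟨hsq, rfl⟩ | ⟨hsq, rfl⟩⟩
  · exact ⟨p^2 + q^2, hsq, canCut_R hp hq hP hr (by rw [hs]; simp) (by rw [hs]; simp)
      (by rw [hs]; simp)⟩
  · exact ⟨3, not_sq_three, canCut_S hP hr (by rw [hs]; simp) (by rw [hs]; simp)
      (by rw [hs]; simp)⟩
  · have e1 : (![2 - (s:ℝ)^2, (1 - (s:ℝ)^2) * (3 - (s:ℝ)^2), 1] : Fin 3 → ℝ)
        = rs ![2 - s^2, (1 - s^2) * (3 - s^2), 1] := by
      funext j; fin_cases j <;> simp [rs]
    have h1' : (s:ℝ) < 1 := by exact_mod_cast h1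
    have h0' : (0:ℝ) < s := by exact_mod_cast h0
    have hs2 : (s:ℝ)^2 < 1 := by nlinarith
    obtain ⟨n, k, hk, hcut, hn⟩ := fin_of_TT (ttF1 h0 h1) hP hr (by rw [← e1]; exact hs)
      (R := (2 - s^2) * (3 - s^2)) (mul_pos (by linarith) (by linarith)) (by
        simp only [her, rs, aF, Matrix.cons_val_zero, Matrix.cons_val_one, Matrix.cons_val]
        push_cast; ring)
    refine ⟨n, not_sq_rat hsq hk ?_, hcut⟩
    rw [hn]; push_cast; ring
  · have e1 : (![(s:ℝ) * (2 - (s:ℝ)^2), 1, 1 - (s:ℝ)^2] : Fin 3 → ℝ)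
        = rs ![s * (2 - s^2), 1, 1 - s^2] := by
      funext j; fin_cases j <;> simp [rs]
    have h1' : (s:ℝ) < 1 := by exact_mod_cast h1
    have h0' : (0:ℝ) < s := by exact_mod_cast h0
    have hs2 : (s:ℝ)^2 < 1 := by nlinarith
    obtain ⟨n, k, hk, hcut, hn⟩ := fin_of_TT (ttF2 h0 h1) hP hr (by rw [← e1]; exact hs)
      (R := (2 - s^2)) (by linarith) (by
        simp only [her, rs, aF, Matrix.cons_val_zero, Matrix.cons_val_one, Matrix.cons_val]
        push_cast; ring)
    refine ⟨n, not_sq_rat hsq hk ?_, hcut⟩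
    rw [hn]; push_cast; ring
  all_goals
    have ha' : (0:ℚ) < a := by exact_mod_cast ha
    have hb' : (0:ℚ) < b := by exact_mod_cast hb
    have hc' : (c:ℚ)^2 = (a:ℚ)^2 + a*b + (b:ℚ)^2 := by exact_mod_cast hc
    have hc0 : (0:ℚ) < c := by
      have : 0 < c := by
        rcases Nat.eq_zero_or_pos c with h | h
        · rw [h] at hc; nlinarith
        · exact h
      exact_mod_cast this
    have hcr : (c:ℝ)^2 = (a:ℝ)^2 + a*b + (b:ℝ)^2 := by exact_mod_cast hc
    have har : (0:ℝ) < a := by exact_mod_cast ha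
    have hbr : (0:ℝ) < b := by exact_mod_cast hb
    have hc4 : (c:ℝ)^4 = ((a:ℝ)^2 + a*b + (b:ℝ)^2)^2 := by rw [← hcr]; ring
    have hc6 : (c:ℝ)^6 = ((a:ℝ)^2 + a*b + (b:ℝ)^2)^3 := by rw [← hcr]; ring
    have hc8 : (c:ℝ)^8 = ((a:ℝ)^2 + a*b + (b:ℝ)^2)^4 := by rw [← hcr]; ring
  · have e1 : (![3 * (a:ℝ) * (a+b), (c:ℝ) * (2*a+b), (c:ℝ)^2] : Fin 3 → ℝ)
        = rs ![3 * (a:ℚ) * (a + b), c * (2*a + b), (c:ℚ)^2] := by
      funext j; fin_cases j <;> simp [rs]
    obtain ⟨n, k, hk, hcut, hn⟩ := fin_of_TT (ttG1 ha' hb' hc0 hc') hP hr (by rw [← e1]; exact hs)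
      (R := 3 * (a+b) * (2*a+b)) (by positivity) (by
        simp only [her, rs, aG, Matrix.cons_val_zero, Matrix.cons_val_one, Matrix.cons_val]
        push_cast
        ring_nf
        simp only [hc8, hc6, hc4, hcr]
        ring)
    refine ⟨n, not_sq_rat (not_sq_nat hsq) hk ?_, hcut⟩
    rw [hn]; push_cast; ring
  · have e1 : (![(a:ℝ) + b, c, b] : Fin 3 → ℝ)
        = rs ![(a:ℚ) + b, c, b] := by
      funext j; fin_cases j <;> simp [rs]
    obtain ⟨n, k, hk, hcut, hn⟩ := fin_of_TT (ttG2 ha' hb' hc0 hc') hP hr (by rw [← e1]; exact hs)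
      (R := (a + b)/a) (by positivity) (by
        simp only [her, rs, aG, Matrix.cons_val_zero, Matrix.cons_val_one, Matrix.cons_val]
        push_cast
        field_simp
        ring_nf
        simp only [hc8, hc6, hc4, hcr]
        ring)
    have hRsq : ¬ IsSquare (((a:ℚ) + b)/a) := by
      rintro ⟨m, hm⟩
      apply not_sq_nat hsq
      refine ⟨a * m, ?_⟩
      have han := ha'.ne'
      rw [div_eq_iff han] at hm
      push_cast
      rw [hm]; ring
    refine ⟨n, not_sq_rat hRsq hk ?_, hcut⟩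
    rw [hn]; push_cast; ring
  · have e1 : (![(c:ℝ) * (a+b), (b:ℝ) * (2*a+b), (a:ℝ) * c] : Fin 3 → ℝ)
        = rs ![(c:ℚ) * (a + b), b * (2*a + b), (a:ℚ) * c] := by
      funext j; fin_cases j <;> simp [rs]
    obtain ⟨n, k, hk, hcut, hn⟩ := fin_of_TT (ttG3 ha' hb' hc0 hc') hP hr (by rw [← e1]; exact hs)
      (R := (a+b) * (2*a+b)) (by positivity) (by
        simp only [her, rs, aG, Matrix.cons_val_zero, Matrix.cons_val_one, Matrix.cons_val]
        push_cast
        ring_nf
        simp only [hc8, hc6, hc4, hcr]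
        ring)
    refine ⟨n, not_sq_rat (not_sq_nat hsq) hk ?_, hcut⟩
    rw [hn]; push_cast; ring
  · have e1 : (![(a:ℝ) * (a+2*b), (b:ℝ) * (2*a+b), (c:ℝ)^2] : Fin 3 → ℝ)
        = rs ![(a:ℚ) * (a + 2*b), b * (2*a + b), (c:ℚ)^2] := by
      funext j; fin_cases j <;> simp [rs]
    obtain ⟨n, k, hk, hcut, hn⟩ := fin_of_TT (ttG4 ha' hb' hc0 hc') hP hr (by rw [← e1]; exact hs)
      (R := (2*a+b) * (a+2*b)) (by positivity) (by
        simp only [her, rs, aG, Matrix.cons_val_zero, Matrix.cons_val_one, Matrix.cons_val]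
        push_cast
        ring_nf
        simp only [hc8, hc6, hc4, hcr]
        ring)
    refine ⟨n, not_sq_rat (not_sq_nat hsq) hk ?_, hcut⟩
    rw [hn]; push_cast; ring

end Pool.Agent.Helper5.SqH
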