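import Pool.Agent.Helper27.SqSpec
import Pool.Agent.Helper27.SqMain

/-!
Module H of the classification of square-only triangles (MP_a03157_co): tilings of plane regions by
congruent triangles with prescribed side lengths; frames; union of regions.
-/

open Set Complex Filter Topology

namespace Pool.Agent.Helper5.SqH
open Pool.Agent.Helper27.Sq

/-- `S` is a finite union of non-degenerate triangles with sides `b 0, b 1, b 2`, with pairwise
disjoint interiors. -/
def TileBy (b : Fin 3 → ℝ) (S : Set ℂ) : Prop :=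
  ∃ (ι : Type) (_ : Fintype ι) (Q : ι → Fin 3 → ℂ),
    (∀ i, AffineIndependent ℝ (Q i)) ∧ (∀ i j, side (Q i) j = b j) ∧
    (⋃ i, tri (Q i)) = S ∧
    Pairwise fun i j => Disjoint (interior (tri (Q i))) (interior (tri (Q j)))

theorem TileBy.union {b : Fin 3 → ℝ} {S T : Set ℂ} (h1 : TileBy b S) (h2 : TileBy b T)
    (hd : Disjoint (interior S) (interior T)) : TileBy b (S ∪ T) := by
  obtain ⟨ι, _, Q, a1, a2, a3, a4⟩ := h1
  obtain ⟨κ, _, R, b1, b2, b3, b4⟩ := h2
  have hS : ∀ i, tri (Q i) ⊆ S := fun i => by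
    rw [← a3]; exact subset_iUnion (fun i => tri (Q i)) i
  have hT : ∀ i, tri (R i) ⊆ T := fun i => by
    rw [← b3]; exact subset_iUnion (fun i => tri (R i)) i
  refine ⟨ι ⊕ κ, inferInstance, Sum.elim Q R, ?_, ?_, ?_, ?_⟩
  · rintro (i | i)
    exacts [a1 i, b1 i]
  · rintro (i | i)
    exacts [a2 i, b2 i]
  · rw [iUnion_sum]
    simp [a3, b3]
  · rintro (i | i) (j | j) hij
    · exact a4 (fun h => hij (by rw [h]))
    · exact hd.mono (interior_mono (hS i)) (interior_mono (hT j))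
    · exact (hd.mono (interior_mono (hS j)) (interior_mono (hT i))).symm
    · exact b4 (fun h => hij (by rw [h]))

theorem tri_perm (P : Fin 3 → ℂ) (σ : Equiv.Perm (Fin 3)) : tri (P ∘ σ) = tri P := by
  unfold tri
  rw [σ.surjective.range_comp]

theorem perm3 : ∀ (σ : Equiv.Perm (Fin 3)) (k : Fin 3),
    (σ (k+1) = σ k + 1 ∧ σ (k+2) = σ k + 2) ∨ (σ (k+1) = σ k + 2 ∧ σ (k+2) = σ k + 1) := by
  decide

theorem side_perm (P : Fin 3 → ℂ) (σ : Equiv.Perm (Fin 3)) (k : Fin 3) :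
    side (P ∘ σ) k = side P (σ k) := by
  unfold side
  simp only [Function.comp_apply]
  rcases perm3 σ k with ⟨h1, h2⟩ | ⟨h1, h2⟩
  · rw [h1, h2]
  · rw [h1, h2, dist_comm]

theorem TileBy.perm {b : Fin 3 → ℝ} {S : Set ℂ} (σ : Equiv.Perm (Fin 3))
    (h : TileBy (b ∘ σ) S) : TileBy b S := by
  obtain ⟨ι, _, Q, a1, a2, a3, a4⟩ := h
  refine ⟨ι, inferInstance, fun i => Q i ∘ σ.symm, ?_, ?_, ?_, ?_⟩
  · intro i
    exact (affineIndependent_equiv σ.symm).2 (a1 i)
  · intro i j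
    rw [side_perm, a2]
    simp
  · simp only [tri_perm]; exact a3
  · simp only [tri_perm]; exact a4

/-- 16 times the square of the area, in terms of the sides -/
def her (b : Fin 3 → ℝ) : ℝ := 4 * b 1 ^ 2 * b 2 ^ 2 - (b 1 ^ 2 + b 2 ^ 2 - b 0 ^ 2) ^ 2

theorem ar_her (P : Fin 3 → ℂ) : 4 * ar P ^ 2 = her (side P) := by
  unfold ar her side cr
  rw [sq_abs]
  have e : ∀ z w : ℂ, dist z w ^ 2 = (z.re - w.re)^2 + (z.im - w.im)^2 := by
    intro z w
    rw [Complex.dist_eq, ← Complex.normSq_eq_norm_sq, Complex.normSq_apply]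
    simp; ring
  have h0 : ((1:Fin 3) + 1 = 2) := rfl
  have h1 : ((1:Fin 3) + 2 = 0) := rfl
  have h2 : ((2:Fin 3) + 1 = 0) := rfl
  have h3 : ((2:Fin 3) + 2 = 1) := rfl
  have h4 : ((0:Fin 3) + 1 = 1) := rfl
  have h5 : ((0:Fin 3) + 2 = 2) := rfl
  simp only [h0, h1, h2, h3, h4, h5, e, sub_re, sub_im]
  ring

theorem her_smul (c : ℝ) (b : Fin 3 → ℝ) : her (fun j => c * b j) = c ^ 4 * her b := by
  unfold her; ring

/-- from tilings to `CanCut` -/
theorem TileBy.canCut {b : Fin 3 → ℝ} {P : Fin 3 → ℂ} (hP : AffineIndependent ℝ P)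
    (h : TileBy b (tri P)) : ∃ n : ℕ, CanCut P n ∧ her (side P) = (n:ℝ)^2 * her b := by
  obtain ⟨ι, _, Q, a1, a2, a3, a4⟩ := h
  let e := (Fintype.equivFin ι).symm
  have hc : ∀ i j, Congruent (Q i) (Q j) := by
    intro i j
    rw [congruent_iff_dist_eq]
    have key : ∀ (k l : Fin 3), dist (Q i k) (Q i l) = dist (Q j k) (Q j l) := by
      have h0 := (a2 i 0).trans (a2 j 0).symm
      have h1 := (a2 i 1).trans (a2 j 1).symm
      have h2 := (a2 i 2).trans (a2 j 2).symm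
      unfold side at h0 h1 h2
      have e0 : ((1:Fin 3) + 1 = 2) := rfl
      have e1 : ((1:Fin 3) + 2 = 0) := rfl
      have e2 : ((2:Fin 3) + 1 = 0) := rfl
      have e3 : ((2:Fin 3) + 2 = 1) := rfl
      have e4 : ((0:Fin 3) + 1 = 1) := rfl
      have e5 : ((0:Fin 3) + 2 = 2) := rfl
      rw [e4, e5] at h0
      rw [e0, e1] at h1
      rw [e2, e3] at h2
      intro k l
      fin_cases k <;> fin_cases l <;> simp <;>
        first
          | assumption
          | (rw [dist_comm, h0, dist_comm])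
          | (rw [dist_comm, h1, dist_comm])
          | (rw [dist_comm, h2, dist_comm])
    exact key
  have hcut : CanCut P (Fintype.card ι) := by
    refine ⟨fun i => Q (e i), fun i => a1 _, fun i j => hc _ _, ?_, ?_⟩
    · rw [← a3]
      exact e.surjective.iUnion_comp (fun i => tri (Q i))
    · intro i j hij
      exact a4 (fun h => hij (e.injective h))
  refine ⟨Fintype.card ι, hcut, ?_⟩
  obtain ⟨Q', b1, b2, b3, b4⟩ := hcut
  -- area
  have hT : Tiling P (Fintype.card ι) (fun i => Q (e i)) := ⟨hP, fun i => a1 _, fun i j => hc _ _,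
    by rw [← a3]; exact e.surjective.iUnion_comp (fun i => tri (Q i)),
    fun i j hij => a4 (fun h => hij (e.injective h))⟩
  have har := hT.area_rel
  rcases isEmpty_or_nonempty ι with hι | ⟨⟨i0⟩⟩
  · exfalso
    have : ar P = 0 := by
      rw [har]
      have : IsEmpty (Fin (Fintype.card ι)) := by
        rw [Fintype.card_eq_zero]; infer_instance
      simp
    exact (ar_pos hP).ne' this
  · have hsame : ∀ i, ar (Q i) = ar (Q i0) := by
      intro i
      have h1 := ar_her (Q i)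
      have h2 := ar_her (Q i0)
      have h3 : side (Q i) = side (Q i0) := funext fun j => (a2 i j).trans (a2 i0 j).symm
      rw [h3, ← h2] at h1
      have h4 : ar (Q i) ^ 2 = ar (Q i0) ^ 2 := by linarith
      exact (pow_left_inj₀ (ar_nonneg _) (ar_nonneg _) two_ne_zero).1 h4
    have h5 : ar P = (Fintype.card ι : ℝ) * ar (Q i0) := by
      rw [har]
      simp [hsame]
    have h6 : side (Q i0) = b := funext fun j => a2 i0 j
    rw [← ar_her, h5, ← h6, ← ar_her]
    ring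

/-! ### frames -/

/-- the point with coordinates `(x, y)` in the frame `(z0, u, v)` -/
def fr (z0 u v : ℂ) (x y : ℝ) : ℂ := z0 + x * u + y * v

section
variable {z0 u v : ℂ} (h : cr u v ≠ 0)

include h in
theorem fr_inj {x y x' y' : ℝ} (e : fr z0 u v x y = fr z0 u v x' y') : x = x' ∧ y = y' := by
  unfold fr at e
  have h1 : ((x - x' : ℝ) : ℂ) * u + ((y - y' : ℝ):ℂ) * v = 0 := by
    push_cast; linear_combination e
  have hre := congrArg Complex.re h1
  have him := congrArg Complex.im h1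
  simp only [Complex.add_re, Complex.add_im, Complex.re_ofReal_mul, Complex.im_ofReal_mul,
    Complex.zero_re, Complex.zero_im] at hre him
  unfold cr at h
  constructor
  · have : (x - x') * (u.re * v.im - u.im * v.re) = 0 := by
      linear_combination v.im * hre - v.re * him
    have := (mul_eq_zero.1 this).resolve_right h
    linarith
  · have : (y - y') * (u.re * v.im - u.im * v.re) = 0 := by
      linear_combination u.re * him - u.im * hre
    have := (mul_eq_zero.1 this).resolve_right h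
    linarith

include h in
theorem fr_surj (z : ℂ) : ∃ x y : ℝ, z = fr z0 u v x y := by
  refine ⟨cr (z - z0) v / cr u v, cr u (z - z0) / cr u v, ?_⟩
  unfold fr
  obtain ⟨D, hD⟩ : ∃ D, D = cr u v := ⟨_, rfl⟩
  rw [← hD]
  have hc : D ≠ 0 := by rw [hD]; exact h
  have hD' : D = u.re * v.im - u.im * v.re := hD
  apply Complex.ext
  · simp only [Complex.add_re, Complex.re_ofReal_mul, cr, Complex.sub_re, Complex.sub_im]
    field_simp
    rw [hD']
    ring
  · simp only [Complex.add_im, Complex.im_ofReal_mul, cr, Complex.sub_re, Complex.sub_im]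
    field_simp
    rw [hD']
    ring

/-- a region given in coordinates -/
def Rg (z0 u v : ℂ) (A : ℝ → ℝ → Prop) : Set ℂ := {z | ∃ x y : ℝ, A x y ∧ z = fr z0 u v x y}

include h in
theorem mem_Rg {A : ℝ → ℝ → Prop} {x y : ℝ} : fr z0 u v x y ∈ Rg z0 u v A ↔ A x y := by
  constructor
  · rintro ⟨x', y', h1, h2⟩
    obtain ⟨rfl, rfl⟩ := fr_inj h h2
    exact h1
  · intro h1
    exact ⟨x, y, h1, rfl⟩

theorem Rg_congr {A B : ℝ → ℝ → Prop} (hAB : ∀ X Y, A X Y ↔ B X Y) : Rg z0 u v A = Rg z0 u v B := by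
  unfold Rg; simp only [hAB]

theorem Rg_or {A B : ℝ → ℝ → Prop} :
    Rg z0 u v (fun X Y => A X Y ∨ B X Y) = Rg z0 u v A ∪ Rg z0 u v B := by
  ext z
  simp only [Rg, mem_union, mem_ofPred_eq]
  constructor
  · rintro ⟨x, y, h1 | h1, h2⟩
    · exact Or.inl ⟨x, y, h1, h2⟩
    · exact Or.inr ⟨x, y, h1, h2⟩
  · rintro (⟨x, y, h1, h2⟩ | ⟨x, y, h1, h2⟩)
    · exact ⟨x, y, Or.inl h1, h2⟩
    · exact ⟨x, y, Or.inr h1, h2⟩

include h in
theorem sep {A B : ℝ → ℝ → Prop} (l m n : ℝ) (hlm : l ≠ 0 ∨ m ≠ 0)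
    (hA : ∀ X Y, A X Y → l*X+m*Y+n ≤ 0) (hB : ∀ X Y, B X Y → 0 ≤ l*X+m*Y+n) :
    Disjoint (interior (Rg z0 u v A)) (interior (Rg z0 u v B)) := by
  rw [Set.disjoint_left]
  intro z hz1 hz2
  obtain ⟨X, Y, rfl⟩ := fr_surj (z0 := z0) h z
  have hopen : IsOpen (interior (Rg z0 u v A) ∩ interior (Rg z0 u v B)) :=
    isOpen_interior.inter isOpen_interior
  have hcont : Continuous fun t : ℝ => fr z0 u v (X + t * l) (Y + t * m) := by
    unfold fr; fun_prop
  have h0 : fr z0 u v (X + 0 * l) (Y + 0 * m) ∈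
      interior (Rg z0 u v A) ∩ interior (Rg z0 u v B) := by
    simp only [zero_mul, add_zero]; exact ⟨hz1, hz2⟩
  have hnhds := hcont.continuousAt.preimage_mem_nhds (hopen.mem_nhds h0)
  obtain ⟨ε, hε, hball⟩ := Metric.mem_nhds_iff.1 hnhds
  have hf : ∀ t : ℝ, |t| < ε → l*(X + t*l)+m*(Y+t*m)+n = 0 := by
    intro t ht
    have h1 : fr z0 u v (X + t * l) (Y + t * m) ∈
      interior (Rg z0 u v A) ∩ interior (Rg z0 u v B) := hball (by simpa using ht)
    have h2 := hA _ _ ((mem_Rg h).1 (interior_subset h1.1))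
    have h3 := hB _ _ ((mem_Rg h).1 (interior_subset h1.2))
    linarith
  have e0 := hf 0 (by simpa using hε)
  have e1 := hf (ε/2) (by rw [abs_of_pos (by linarith)]; linarith)
  have e2 : ε/2 * (l^2+m^2) = 0 := by linear_combination e1 - e0
  have e3 : 0 < l^2+m^2 := by
    rcases hlm with hl | hm
    · positivity
    · positivity
  have : 0 < ε/2 * (l^2+m^2) := by positivity
  linarith

include h in
theorem ai_fr {x0 y0 x1 y1 x2 y2 : ℝ} (hD : (x1-x0)*(y2-y0) - (x2-x0)*(y1-y0) ≠ 0) :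
    AffineIndependent ℝ ![fr z0 u v x0 y0, fr z0 u v x1 y1, fr z0 u v x2 y2] := by
  rw [ai_iff]
  intro a b c h1 h2
  simp only [Matrix.cons_val_zero, Matrix.cons_val_one, Matrix.cons_val, Complex.real_smul] at h2
  have h3 : fr 0 u v (b*(x1-x0) + c*(x2-x0)) (b*(y1-y0)+c*(y2-y0)) = fr 0 u v 0 0 := by
    unfold fr at h2 ⊢
    have ha : (a:ℂ) = -b - c := by
      have : a = -b - c := by linarith
      rw [this]; push_cast; ring
    rw [ha] at h2
    push_cast
    linear_combination h2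
  obtain ⟨e1, e2⟩ := fr_inj h h3
  have hc : c = 0 := by
    have : c * ((x1-x0)*(y2-y0) - (x2-x0)*(y1-y0)) = 0 := by
      linear_combination (x1-x0) * e2 - (y1-y0) * e1
    exact (mul_eq_zero.1 this).resolve_right hD
  have hb : b = 0 := by
    have : b * ((x1-x0)*(y2-y0) - (x2-x0)*(y1-y0)) = 0 := by
      linear_combination (y2-y0) * e1 - (x2-x0) * e2
    exact (mul_eq_zero.1 this).resolve_right hD
  exact ⟨by linarith, hb, hc⟩

include h in
theorem tri_fr {x0 y0 x1 y1 x2 y2 : ℝ} (hD : 0 < (x1-x0)*(y2-y0) - (x2-x0)*(y1-y0)) :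
    tri ![fr z0 u v x0 y0, fr z0 u v x1 y1, fr z0 u v x2 y2] =
      Rg z0 u v (fun X Y => 0 ≤ (x1-x0)*(Y-y0) - (X-x0)*(y1-y0) ∧
        0 ≤ (x2-x1)*(Y-y1) - (X-x1)*(y2-y1) ∧ 0 ≤ (x0-x2)*(Y-y2) - (X-x2)*(y0-y2)) := by
  have hai := ai_fr (z0 := z0) h hD.ne'
  ext z
  constructor
  · intro hz
    rw [tri_eq hai] at hz
    have h1 := co_rep hai z
    have h2 := co_sum hai z
    set a := co hai 0 z
    set b := co hai 1 z
    set c := co hai 2 z
    have ha : 0 ≤ a := hz 0
    have hb : 0 ≤ b := hz 1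
    have hc : 0 ≤ c := hz 2
    simp only [Matrix.cons_val_zero, Matrix.cons_val_one, Matrix.cons_val, Complex.real_smul] at h1
    refine ⟨a*x0+b*x1+c*x2, a*y0+b*y1+c*y2, ⟨?_, ?_, ?_⟩, ?_⟩
    · have : (x1-x0)*(a*y0+b*y1+c*y2-y0) - (a*x0+b*x1+c*x2-x0)*(y1-y0)
          = c * ((x1-x0)*(y2-y0) - (x2-x0)*(y1-y0)) := by
        have : a = 1 - b - c := by linarith
        rw [this]; ring
      rw [this]; positivity
    · have : (x2-x1)*(a*y0+b*y1+c*y2-y1) - (a*x0+b*x1+c*x2-x1)*(y2-y1)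
          = a * ((x1-x0)*(y2-y0) - (x2-x0)*(y1-y0)) := by
        have : b = 1 - a - c := by linarith
        rw [this]; ring
      rw [this]; positivity
    · have : (x0-x2)*(a*y0+b*y1+c*y2-y2) - (a*x0+b*x1+c*x2-x2)*(y0-y2)
          = b * ((x1-x0)*(y2-y0) - (x2-x0)*(y1-y0)) := by
        have : c = 1 - a - b := by linarith
        rw [this]; ring
      rw [this]; positivity
    · rw [h1]
      unfold fr
      have : (a:ℂ) = 1 - b - c := by
        have : a = 1 - b - c := by linarith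
        rw [this]; push_cast; ring
      rw [show ((a*x0+b*x1+c*x2:ℝ):ℂ) = a*x0+b*x1+c*x2 by push_cast; ring,
        show ((a*y0+b*y1+c*y2:ℝ):ℂ) = a*y0+b*y1+c*y2 by push_cast; ring, this]
      ring
  · rintro ⟨X, Y, ⟨h1, h2, h3⟩, rfl⟩
    set D := (x1-x0)*(y2-y0) - (x2-x0)*(y1-y0) with hDdef
    set E1 := (x1-x0)*(Y-y0) - (X-x0)*(y1-y0) with hE1
    set E2 := (x2-x1)*(Y-y1) - (X-x1)*(y2-y1) with hE2
    set E3 := (x0-x2)*(Y-y2) - (X-x2)*(y0-y2) with hE3
    have hsum : E1 + E2 + E3 = D := by rw [hE1, hE2, hE3, hDdef]; ring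
    have h4 := mem_tri ![fr z0 u v x0 y0, fr z0 u v x1 y1, fr z0 u v x2 y2]
      (a := E2/D) (b := E3/D) (c := E1/D) (by positivity) (by positivity) (by positivity)
      (by field_simp; linarith)
    convert h4 using 1
    simp only [Matrix.cons_val_zero, Matrix.cons_val_one, Matrix.cons_val, Complex.real_smul]
    have hX : X = E2/D*x0+E3/D*x1+E1/D*x2 := by
      have hDn := hD.ne'
      field_simp
      rw [hDdef, hE1, hE2, hE3]; ring
    have hY : Y = E2/D*y0+E3/D*y1+E1/D*y2 := by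
      have hDn := hD.ne'
      field_simp
      rw [hDdef, hE1, hE2, hE3]; ring
    have h1' : (((E2/D : ℝ)):ℂ) + ((E3/D:ℝ):ℂ) + ((E1/D:ℝ):ℂ) = 1 := by
      have : E2/D + E3/D + E1/D = 1 := by field_simp; linarith
      exact_mod_cast this
    have hXc : (X:ℂ) = ((E2/D:ℝ):ℂ)*x0+((E3/D:ℝ):ℂ)*x1+((E1/D:ℝ):ℂ)*x2 := by
      exact_mod_cast congrArg (fun t : ℝ => (t:ℂ)) hX
    have hYc : (Y:ℂ) = ((E2/D:ℝ):ℂ)*y0+((E3/D:ℝ):ℂ)*y1+((E1/D:ℝ):ℂ)*y2 := by
      exact_mod_cast congrArg (fun t : ℝ => (t:ℂ)) hY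
    unfold fr
    rw [hXc, hYc]
    linear_combination (-z0) * h1'

end

end Pool.Agent.Helper5.SqH
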