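import Pool.Agent.Helper5.SqH.Frame

/-!
The families.
-/

open Set Complex Filter Topology

namespace Pool.Agent.Helper5.SqH
open Pool.Agent.Helper27.Sq

theorem exists_perm : ∀ i j : Fin 3, i ≠ j → ∃ σ : Equiv.Perm (Fin 3), σ 0 = i ∧ σ 1 = j := by
  decide

theorem perm_cases : ∀ σ : Equiv.Perm (Fin 3),
    (σ 0 = 0 ∧ σ 1 = 1 ∧ σ 2 = 2) ∨ (σ 0 = 0 ∧ σ 1 = 2 ∧ σ 2 = 1) ∨
    (σ 0 = 1 ∧ σ 1 = 0 ∧ σ 2 = 2) ∨ (σ 0 = 1 ∧ σ 1 = 2 ∧ σ 2 = 0) ∨
    (σ 0 = 2 ∧ σ 1 = 0 ∧ σ 2 = 1) ∨ (σ 0 = 2 ∧ σ 1 = 1 ∧ σ 2 = 0) := by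
  decide

section
variable {a C : Fin 3 → ℚ} {e lam : ℚ} {z0 u v : ℂ}

theorem g_up (hT : RTile a C e) (hF : MFr e lam u v) (i j : Fin 3) (hij : i ≠ j) {q : ℚ}
    (h : Good a z0 u v (- sl a C j) q) : Good a z0 u v (sl a C i) q := by
  obtain ⟨σ, h0, h1⟩ := exists_perm i j hij
  rw [← h0]
  apply good_up hT hF σ
  rwa [h1]

theorem g_down (hT : RTile a C e) (hF : MFr e lam u v) (i j : Fin 3) (hij : i ≠ j) {q : ℚ}
    (h : Good a z0 u v (sl a C j) q) : Good a z0 u v (- sl a C i) q := by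
  obtain ⟨σ, h0, h1⟩ := exists_perm i j hij
  rw [← h0]
  apply good_down hT hF σ
  rwa [h1]

theorem g_par (hT : RTile a C e) (hF : MFr e lam u v) (i : Fin 3) :
    Good a z0 u v (- sl a C i) (- sl a C i) := by
  obtain ⟨σ, h0, h1⟩ := exists_perm i (i+1) (f3a i)
  have := good_par (z0 := z0) hT hF σ (s := -1) (Or.inr rfl)
  rw [h0] at this
  simpa using this

end

/-- from a model in coordinates to `TT` -/
theorem tt_model {a C : Fin 3 → ℚ} {e : ℚ} (hT : RTile a C e) (x : Fin 3 → ℚ)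
    (ν : Equiv.Perm (Fin 3)) {κ : ℚ} (hκ : 0 < κ) {w q vx vy p gx gy hx : ℚ}
    (X2 : x (ν 2) = κ * w) (X1 : x (ν 1)^2 = κ^2 * (vx^2 + e * vy^2))
    (X0 : x (ν 0)^2 = κ^2 * ((vx - w)^2 + e * vy^2))
    (hw : 0 < w) (hg0 : 0 < gy) (hg1 : gy < vy) (hvx : vx = w + q * vy) (hgx : gx = p * gy)
    (hhx : hx = w + q * gy) (hD1 : vx < p * vy) (hD2 : gx < hx)
    (σ τ : Equiv.Perm (Fin 3)) {ρ ρ' : ℚ} (hρ : 0 < ρ) (hρ' : 0 < ρ')
    (s0 : (gx - vx)^2 + e * (gy - vy)^2 = (ρ * a (σ 0))^2)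
    (s1 : (vx - 0)^2 + e * (vy - 0)^2 = (ρ * a (σ 1))^2)
    (s2 : (0 - gx)^2 + e * (0 - gy)^2 = (ρ * a (σ 2))^2)
    (t0 : (hx - vx)^2 + e * (gy - vy)^2 = (ρ' * a (τ 0))^2)
    (t1 : (vx - gx)^2 + e * (vy - gy)^2 = (ρ' * a (τ 1))^2)
    (t2 : (gx - hx)^2 + e * (gy - gy)^2 = (ρ' * a (τ 2))^2)
    (hgood : ∀ {lam : ℚ} {z0 u v : ℂ}, MFr e lam u v → Good a z0 u v p q) :
    TT (rs a) (rs x) := by
  intro P hP r hr hs
  have hP' : AffineIndependent ℝ (P ∘ ν) := (affineIndependent_equiv ν).2 hP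
  have hside : ∀ k, side (P ∘ ν) k = r * x (ν k) := by
    intro k; rw [side_perm, hs]; rfl
  have hw' : (0:ℝ) < w := by exact_mod_cast hw
  have hvy' : (0:ℝ) < vy := by
    have : 0 < vy := by linarith
    exact_mod_cast this
  have X2' : (x (ν 2) : ℝ) = κ * w := by exact_mod_cast X2
  have X1' : (x (ν 1) : ℝ)^2 = κ^2 * (vx^2 + e * vy^2) := by exact_mod_cast X1
  have X0' : (x (ν 0) : ℝ)^2 = κ^2 * ((vx - w)^2 + e * vy^2) := by exact_mod_cast X0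
  obtain ⟨z0, u, v, hF, hPe⟩ := exists_frame hP' hT.epos (lam := r * κ) (mul_pos hr hκ)
    (w := w) (vx := vx) (vy := vy) hw' hvy'
    (by rw [hside, X2']; push_cast; ring)
    (by rw [hside, mul_pow, X1']; push_cast; ring)
    (by rw [hside, mul_pow, X0']; push_cast; ring)
  have key := assemble (z0 := z0) hF hT.apos hw hg0 hg1 hvx hgx hhx hD1 hD2 σ τ hρ hρ' s0 s1 s2
    t0 t1 t2 (hgood hF)
  rw [← hPe, tri_perm] at key
  exact key

/-! ### the F tile -/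

def aF (s : ℚ) : Fin 3 → ℚ := ![s, 1 - s^2, 1]
def cF (s : ℚ) : Fin 3 → ℚ := ![(2 - s^2)/2, s * (3 - s^2)/2, -s/2]

theorem rtF {s : ℚ} (h0 : 0 < s) (h1 : s < 1) : RTile (aF s) (cF s) (1 - s^2/4) := by
  have hs2 : s^2 < 1 := by nlinarith
  refine ⟨?_, by nlinarith, ?_, ?_, ?_⟩
  · intro j; fin_cases j
    · simpa [aF] using h0
    · simp only [aF, Fin.mk_one, Matrix.cons_val_one, Matrix.cons_val_zero]; linarith
    · simp [aF]
  · intro j; fin_cases j <;> simp [aF, cF] <;> ring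
  · intro σ
    rcases perm_cases σ with ⟨h0, h1, h2⟩ | ⟨h0, h1, h2⟩ | ⟨h0, h1, h2⟩ | ⟨h0, h1, h2⟩ |
      ⟨h0, h1, h2⟩ | ⟨h0, h1, h2⟩ <;> rw [h0, h1, h2] <;> simp [aF, cF] <;> ring
  · intro σ
    rcases perm_cases σ with ⟨h0, h1, h2⟩ | ⟨h0, h1, h2⟩ | ⟨h0, h1, h2⟩ | ⟨h0, h1, h2⟩ |
      ⟨h0, h1, h2⟩ | ⟨h0, h1, h2⟩ <;> rw [h0, h1, h2] <;> simp [aF, cF] <;> ring

theorem slF0 (s : ℚ) : sl (aF s) (cF s) 0 = (2 - s^2)/2/s := by simp [sl, aF, cF]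
theorem slF1 (s : ℚ) : sl (aF s) (cF s) 1 = s * (3 - s^2)/2/(1 - s^2) := by simp [sl, aF, cF]

theorem ttF1 {s : ℚ} (h0 : 0 < s) (h1 : s < 1) :
    TT (rs (aF s)) (rs ![2 - s^2, (1 - s^2) * (3 - s^2), 1]) := by
  have hs2 : s^2 < 1 := by nlinarith
  have hs0 := h0.ne'
  have hT := rtF h0 h1
  refine tt_model hT _ (Equiv.swap 1 2) (κ := 1) one_pos (w := (1 - s^2) * (3 - s^2))
    (q := - sl (aF s) (cF s) 0) (vx := (2 - s^2)^2/2 - 1) (vy := s * (2 - s^2))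
    (p := sl (aF s) (cF s) 0) (gx := (1 - s^2) * (2 - s^2)/2) (gy := s * (1 - s^2))
    (hx := (1 - s^2) * (2 - s^2)/2 + (1 - s^2)) ?_ ?_ ?_ ?_ ?_ ?_ ?_ ?_ ?_ ?_ ?_
    (Equiv.swap 1 2) (finRotate 3)⁻¹ (ρ := 1) (ρ' := 1) one_pos one_pos ?_ ?_ ?_ ?_ ?_ ?_ ?_
  · simp
  · have : (Equiv.swap (1:Fin 3) 2) 1 = 2 := by decide
    rw [this]; simp; ring
  · have : (Equiv.swap (1:Fin 3) 2) 0 = 0 := by decide
    rw [this]; simp; ring
  · exact mul_pos (by linarith) (by linarith)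
  · exact mul_pos h0 (by linarith)
  · exact mul_lt_mul_of_pos_left (by linarith) h0
  · rw [slF0]; field_simp; ring
  · rw [slF0]; field_simp
  · rw [slF0]; field_simp; ring
  · rw [slF0]
    have : (2 - s^2)/2/s * (s * (2 - s^2)) = (2 - s^2)^2/2 := by field_simp
    rw [this]; linarith
  · linarith
  · have : (Equiv.swap (1:Fin 3) 2) 0 = 0 := by decide
    rw [this]; simp [aF]; ring
  · have : (Equiv.swap (1:Fin 3) 2) 1 = 2 := by decide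
    rw [this]; simp [aF]; ring
  · have : (Equiv.swap (1:Fin 3) 2) 2 = 1 := by decide
    rw [this]; simp [aF]; ring
  · have : (finRotate 3)⁻¹ (0:Fin 3) = 2 := by decide
    rw [this]; simp [aF]; ring
  · have : (finRotate 3)⁻¹ (1:Fin 3) = 0 := by decide
    rw [this]; simp [aF]; ring
  · have : (finRotate 3)⁻¹ (2:Fin 3) = 1 := by decide
    rw [this]; simp [aF]; ring
  · intro lam z0 u v hF
    exact g_up hT hF 0 1 (by decide) (g_down hT hF 1 2 (by decide)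
      (g_up hT hF 2 0 (by decide) (g_par hT hF 0)))

theorem ttF2 {s : ℚ} (h0 : 0 < s) (h1 : s < 1) :
    TT (rs (aF s)) (rs ![s * (2 - s^2), 1, 1 - s^2]) := by
  have hs2 : s^2 < 1 := by nlinarith
  have hs0 := h0.ne'
  have hb : 0 < 1 - s^2 := by linarith
  have hb0 := hb.ne'
  have hT := rtF h0 h1
  refine tt_model hT _ (finRotate 3) (κ := 1 - s^2) hb (w := s * (2 - s^2)/(1 - s^2))
    (q := - sl (aF s) (cF s) 1) (vx := s/2) (vy := 1)
    (p := sl (aF s) (cF s) 0) (gx := s * (2 - s^2)/2) (gy := s^2)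
    (hx := s * (2 - s^2)/2 + s) ?_ ?_ ?_ ?_ ?_ ?_ ?_ ?_ ?_ ?_ ?_
    (finRotate 3) (Equiv.swap 0 2) (ρ := 1) (ρ' := 1) one_pos one_pos ?_ ?_ ?_ ?_ ?_ ?_ ?_
  · have : (finRotate 3) (2:Fin 3) = 0 := by decide
    rw [this]; simp; field_simp
  · have : (finRotate 3) (1:Fin 3) = 2 := by decide
    rw [this]; simp; ring
  · have : (finRotate 3) (0:Fin 3) = 1 := by decide
    rw [this]; simp; field_simp; ring
  · exact div_pos (mul_pos h0 (by linarith)) hb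
  · positivity
  · exact hs2
  · rw [slF1]; field_simp; ring
  · rw [slF0]; field_simp
  · rw [slF1]; field_simp; ring
  · rw [slF0]
    rw [mul_one, div_div, lt_div_iff₀ (by positivity)]
    nlinarith
  · linarith
  · have : (finRotate 3) (0:Fin 3) = 1 := by decide
    rw [this]; simp [aF]; ring
  · have : (finRotate 3) (1:Fin 3) = 2 := by decide
    rw [this]; simp [aF]; ring
  · have : (finRotate 3) (2:Fin 3) = 0 := by decide
    rw [this]; simp [aF]; ring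
  · have : (Equiv.swap (0:Fin 3) 2) 0 = 2 := by decide
    rw [this]; simp [aF]; ring
  · have : (Equiv.swap (0:Fin 3) 2) 1 = 1 := by decide
    rw [this]; simp [aF]; ring
  · have : (Equiv.swap (0:Fin 3) 2) 2 = 0 := by decide
    rw [this]; simp [aF]
  · intro lam z0 u v hF
    exact g_up hT hF 0 1 (by decide) (g_par hT hF 1)

end Pool.Agent.Helper5.SqH
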