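import Pool.Agent.Helper5.SqH.Fam

/-!
The families with a 120 degrees tile.
-/

open Set Complex Filter Topology

namespace Pool.Agent.Helper5.SqH
open Pool.Agent.Helper27.Sq

def aG (a b c : ℚ) : Fin 3 → ℚ := ![a, b, c]
def cG (a b c : ℚ) : Fin 3 → ℚ := ![(a + 2*b)/(2*c), (2*a + b)/(2*c), -1/2]

variable {a b c : ℚ}

theorem rtG (ha : 0 < a) (hb : 0 < b) (hc0 : 0 < c) (hc : c^2 = a^2 + a*b + b^2) :
    RTile (aG a b c) (cG a b c) (3/(4*c^2)) := by
  have hcn := hc0.ne'
  refine ⟨?_, by positivity, ?_, ?_, ?_⟩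
  · intro j; fin_cases j
    · simpa [aG] using ha
    · simpa [aG] using hb
    · simpa [aG] using hc0
  · intro j; fin_cases j
    · simp [aG, cG]; field_simp; linear_combination (-16) * hc
    · simp [aG, cG]; field_simp; linear_combination (-16) * hc
    · simp [aG, cG]; field_simp; ring
  · intro σ
    rcases perm_cases σ with ⟨h0, h1, h2⟩ | ⟨h0, h1, h2⟩ | ⟨h0, h1, h2⟩ | ⟨h0, h1, h2⟩ |
      ⟨h0, h1, h2⟩ | ⟨h0, h1, h2⟩ <;> rw [h0, h1, h2] <;> simp [aG, cG] <;> field_simp <;>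
      first
        | ring1
        | linear_combination hc
        | linear_combination 2 * hc
        | linear_combination (-1) * hc
        | linear_combination (-2) * hc
  · intro σ
    rcases perm_cases σ with ⟨h0, h1, h2⟩ | ⟨h0, h1, h2⟩ | ⟨h0, h1, h2⟩ | ⟨h0, h1, h2⟩ |
      ⟨h0, h1, h2⟩ | ⟨h0, h1, h2⟩ <;> rw [h0, h1, h2] <;> simp [aG, cG] <;> field_simp <;>
      first
        | ring1
        | linear_combination hc
        | linear_combination 2 * hc
        | linear_combination (-1) * hc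
        | linear_combination (-2) * hc

theorem slG0 (a b c : ℚ) : sl (aG a b c) (cG a b c) 0 = (a + 2*b)/(2*c)/a := by simp [sl, aG, cG]
theorem slG1 (a b c : ℚ) : sl (aG a b c) (cG a b c) 1 = (2*a + b)/(2*c)/b := by simp [sl, aG, cG]
theorem slG2 (a b c : ℚ) : sl (aG a b c) (cG a b c) 2 = -1/2/c := by simp [sl, aG, cG]

theorem ttG2 (ha : 0 < a) (hb : 0 < b) (hc0 : 0 < c) (hc : c^2 = a^2 + a*b + b^2) :
    TT (rs (aG a b c)) (rs ![a + b, c, b]) := by
  have hcn := hc0.ne'
  have han := ha.ne'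
  have hbn := hb.ne'
  have hT := rtG ha hb hc0 hc
  refine tt_model hT _ (Equiv.swap 1 2) (κ := b/c) (by positivity) (w := c^2/b)
    (q := - sl (aG a b c) (cG a b c) 1) (vx := (b - a)/2) (vy := c * (a + b))
    (p := - sl (aG a b c) (cG a b c) 2) (gx := b/2) (gy := b * c)
    (hx := b/2 + a^2/b) ?_ ?_ ?_ ?_ ?_ ?_ ?_ ?_ ?_ ?_ ?_
    (Equiv.swap 1 2) (Equiv.swap 0 2) (ρ := 1) (ρ' := a/b) one_pos (by positivity)
    ?_ ?_ ?_ ?_ ?_ ?_ ?_
  · have : (Equiv.swap (1:Fin 3) 2) 2 = 1 := by decide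
    rw [this]; simp; field_simp
  · have : (Equiv.swap (1:Fin 3) 2) 1 = 2 := by decide
    rw [this]; simp; field_simp; linear_combination 16 * hc
  · have : (Equiv.swap (1:Fin 3) 2) 0 = 0 := by decide
    rw [this]; simp; field_simp; rw [hc]; ring
  · positivity
  · positivity
  · nlinarith
  · rw [slG1]; field_simp; linear_combination (-2) * hc
  · rw [slG2]; field_simp
  · rw [slG1]; field_simp; linear_combination (-2) * hc
  · rw [slG2]
    have : -(-1/2/c) * (c * (a + b)) = (a + b)/2 := by field_simp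
    rw [this]; linarith
  · have : 0 < a^2/b := by positivity
    linarith
  · have : (Equiv.swap (1:Fin 3) 2) 0 = 0 := by decide
    rw [this]; simp [aG]; field_simp; ring
  · have : (Equiv.swap (1:Fin 3) 2) 1 = 2 := by decide
    rw [this]; simp [aG]; field_simp; linear_combination (-16) * hc
  · have : (Equiv.swap (1:Fin 3) 2) 2 = 1 := by decide
    rw [this]; simp [aG]; field_simp; ring
  · have : (Equiv.swap (0:Fin 3) 2) 0 = 2 := by decide
    rw [this]; simp [aG]; field_simp; rw [hc]; ring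
  · have : (Equiv.swap (0:Fin 3) 2) 1 = 1 := by decide
    rw [this]; simp [aG]; field_simp; ring
  · have : (Equiv.swap (0:Fin 3) 2) 2 = 0 := by decide
    rw [this]; simp [aG]; field_simp
  · intro lam z0 u v hF
    exact g_down hT hF 2 0 (by decide) (g_up hT hF 0 1 (by decide) (g_par hT hF 1))

theorem ttG3 (ha : 0 < a) (hb : 0 < b) (hc0 : 0 < c) (hc : c^2 = a^2 + a*b + b^2) :
    TT (rs (aG a b c)) (rs ![c * (a + b), b * (2*a + b), a * c]) := by
  have hcn := hc0.ne'
  have han := ha.ne'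
  have hbn := hb.ne'
  have hT := rtG ha hb hc0 hc
  refine tt_model hT _ (Equiv.swap 1 2) (κ := a) ha (w := b * (2*a + b)/a)
    (q := - sl (aG a b c) (cG a b c) 0) (vx := (b - a)/2) (vy := c * (a + b))
    (p := - sl (aG a b c) (cG a b c) 2) (gx := b/2) (gy := b * c)
    (hx := b/2 + b) ?_ ?_ ?_ ?_ ?_ ?_ ?_ ?_ ?_ ?_ ?_
    (Equiv.swap 1 2) (finRotate 3)⁻¹ (ρ := 1) (ρ' := 1) one_pos one_pos
    ?_ ?_ ?_ ?_ ?_ ?_ ?_
  · have : (Equiv.swap (1:Fin 3) 2) 2 = 1 := by decide
    rw [this]; simp; field_simp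
  · have : (Equiv.swap (1:Fin 3) 2) 1 = 2 := by decide
    rw [this]; simp; field_simp; linear_combination 16 * hc
  · have : (Equiv.swap (1:Fin 3) 2) 0 = 0 := by decide
    rw [this]; simp; field_simp; rw [hc]; ring
  · positivity
  · positivity
  · nlinarith
  · rw [slG0]; field_simp; ring
  · rw [slG2]; field_simp
  · rw [slG0]; field_simp; ring
  · rw [slG2]
    have : -(-1/2/c) * (c * (a + b)) = (a + b)/2 := by field_simp
    rw [this]; linarith
  · linarith
  · have : (Equiv.swap (1:Fin 3) 2) 0 = 0 := by decide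
    rw [this]; simp [aG]; field_simp; ring
  · have : (Equiv.swap (1:Fin 3) 2) 1 = 2 := by decide
    rw [this]; simp [aG]; field_simp; linear_combination (-16) * hc
  · have : (Equiv.swap (1:Fin 3) 2) 2 = 1 := by decide
    rw [this]; simp [aG]; field_simp; ring
  · have : (finRotate 3)⁻¹ (0:Fin 3) = 2 := by decide
    rw [this]; simp [aG]; field_simp; linear_combination (-16) * hc
  · have : (finRotate 3)⁻¹ (1:Fin 3) = 0 := by decide
    rw [this]; simp [aG]; field_simp; ring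
  · have : (finRotate 3)⁻¹ (2:Fin 3) = 1 := by decide
    rw [this]; simp [aG]
  · intro lam z0 u v hF
    exact g_down hT hF 2 1 (by decide) (g_up hT hF 1 0 (by decide) (g_par hT hF 0))

theorem Tl.perm {a : Fin 3 → ℝ} {S : Set ℂ} (σ : Equiv.Perm (Fin 3)) (h : Tl (a ∘ σ) S) :
    Tl a S := by
  obtain ⟨k0, h1, h2⟩ := h
  exact ⟨k0, h1, fun k hk hd => TileBy.perm σ (h2 k hk hd)⟩

theorem TT.perm {a x : Fin 3 → ℝ} (σ : Equiv.Perm (Fin 3)) (h : TT (a ∘ σ) x) :
    TT a x := fun P hP ρ hρ hs => Tl.perm σ (h P hP ρ hρ hs)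

theorem TT.permx {a x : Fin 3 → ℝ} (σ : Equiv.Perm (Fin 3)) (h : TT a (x ∘ σ)) :
    TT a x := by
  intro P hP ρ hρ hs
  have := h (P ∘ σ) ((affineIndependent_equiv σ).2 hP) ρ hρ (by
    intro k; rw [side_perm, hs]; rfl)
  rwa [tri_perm] at this

/-- G3 with `a` and `b` interchanged -/
theorem ttG3' (ha : 0 < a) (hb : 0 < b) (hc0 : 0 < c) (hc : c^2 = a^2 + a*b + b^2) :
    TT (rs (aG a b c)) (rs ![c * (a + b), a * (a + 2*b), b * c]) := by
  have h := ttG3 hb ha hc0 (by rw [hc]; ring)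
  apply TT.perm (Equiv.swap 0 1)
  convert h using 2
  · funext j; fin_cases j <;> simp [rs, aG, Equiv.swap_apply_def]
  · congr 1
    · ring
    · congr 1
      · ring

end Pool.Agent.Helper5.SqH
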