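import Pool.Agent.Helper5.SqH.Steps

/-!
Existence of metric frames; cevians.
-/

open Set Complex Filter Topology

namespace Pool.Agent.Helper5.SqH
open Pool.Agent.Helper27.Sq

theorem side_eq3 (P : Fin 3 → ℂ) : side P 0 = dist (P 1) (P 2) ∧ side P 1 = dist (P 2) (P 0) ∧
    side P 2 = dist (P 0) (P 1) := by
  conv_lhs => rw [eta3 P, side3]
  refine ⟨rfl, ?_, ?_⟩
  · conv_lhs => rw [eta3 P, side3]
    rfl
  · conv_lhs => rw [eta3 P, side3]
    rfl

theorem exists_frame {P : Fin 3 → ℂ} (hP : AffineIndependent ℝ P) {e lam : ℚ} (he : 0 < e)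
    (hl : 0 < lam) {w vx vy : ℝ} (hw : 0 < w) (hvy : 0 < vy) (h2 : side P 2 = lam * w)
    (h1 : side P 1 ^ 2 = lam^2 * (vx^2 + e * vy^2))
    (h0 : side P 0 ^ 2 = lam^2 * ((vx - w)^2 + e * vy^2)) :
    ∃ z0 u v : ℂ, MFr e lam u v ∧ P = ![fr z0 u v 0 0, fr z0 u v w 0, fr z0 u v vx vy] := by
  have hl' : (0:ℝ) < lam := by exact_mod_cast hl
  have he' : (0:ℝ) < e := by exact_mod_cast he
  obtain ⟨s0, s1, s2⟩ := side_eq3 P
  obtain ⟨η, hη0, hη⟩ : ∃ η : ℝ, 0 < η ∧ η^2 = e :=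
    ⟨√e, Real.sqrt_pos.2 he', Real.sq_sqrt he'.le⟩
  obtain ⟨u, hu⟩ : ∃ u : ℂ, u = (P 1 - P 0) / w := ⟨_, rfl⟩
  have hwc : (w:ℂ) ≠ 0 := by exact_mod_cast hw.ne'
  have hnu : ‖u‖ = lam := by
    rw [hu, norm_div, ← dist_eq_norm, dist_comm, ← s2, h2]
    simp only [Complex.norm_real, Real.norm_eq_abs, abs_of_pos hw]
    field_simp
  have hns : normSq u = lam^2 := by rw [normSq_eq_norm_sq, hnu]
  have hns' : u.re^2 + u.im^2 = lam^2 := by
    rw [← hns, normSq_apply]; ring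
  have hM : ∀ ε : ℝ, ε^2 = 1 → MFr e lam u (((ε * η : ℝ):ℂ) * I * u) := by
    intro ε hε
    refine ⟨hl, ?_, ?_⟩
    · have : cr u (((ε * η : ℝ):ℂ) * I * u) = ε * η * (u.re^2 + u.im^2) := by
        unfold cr; simp; ring
      rw [this, hns']
      have : ε ≠ 0 := by rintro rfl; norm_num at hε
      positivity
    · intro x y
      have e1 : (x:ℂ) * u + y * (((ε * η : ℝ):ℂ) * I * u) = (⟨x, y * (ε * η)⟩ : ℂ) * u := by
        apply Complex.ext <;> simp <;> ring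
      rw [e1, norm_mul, mul_pow, hnu, ← normSq_eq_norm_sq, normSq_mk]
      have : x * x + y * (ε * η) * (y * (ε * η)) = x^2 + e * y^2 := by
        rw [← hη]; linear_combination (y^2 * η^2) * hε
      rw [this]; ring
  have hF1 := hM 1 (by norm_num)
  obtain ⟨X, Y, hXY⟩ := fr_surj (z0 := P 0) hF1.crne (P 2)
  have e0 : ∀ v, P 0 = fr (P 0) u v 0 0 := by intro v; unfold fr; simp
  have e1 : ∀ v, P 1 = fr (P 0) u v w 0 := by
    intro v; unfold fr; rw [hu]; field_simp; push_cast; ring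
  set v1 : ℂ := (((1 * η : ℝ):ℂ) * I * u) with hv1
  have d1 : side P 1 ^ 2 = lam^2 * (X^2 + e * Y^2) := by
    rw [s1, dist_eq_norm, ← hF1.norm X Y]
    congr 2
    rw [hXY]; unfold fr; ring
  have d0 : side P 0 ^ 2 = lam^2 * ((X - w)^2 + e * Y^2) := by
    rw [s0, dist_comm, dist_eq_norm, ← hF1.norm (X - w) Y]
    congr 2
    rw [hXY, e1 v1]
    unfold fr; push_cast; ring
  have hl2 : (0:ℝ) < lam^2 := by positivity
  have f1 : X^2 + e * Y^2 = vx^2 + e * vy^2 := by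
    apply mul_left_cancel₀ hl2.ne'
    rw [← d1, h1]
  have f0 : (X - w)^2 + e * Y^2 = (vx - w)^2 + e * vy^2 := by
    apply mul_left_cancel₀ hl2.ne'
    rw [← d0, h0]
  have hX : X = vx := by
    have : 2 * w * (X - vx) = 0 := by linear_combination f1 - f0
    have := (mul_eq_zero.1 this).resolve_left (by positivity)
    linarith
  have hY : Y^2 = vy^2 := by
    rw [hX] at f1
    have : (e:ℝ) * (Y^2 - vy^2) = 0 := by linear_combination f1
    have := (mul_eq_zero.1 this).resolve_left he'.ne'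
    linarith
  rcases sq_eq_sq_iff_eq_or_eq_neg.1 hY with hY | hY
  · refine ⟨P 0, u, v1, hF1, ?_⟩
    rw [← e0, ← e1, ← hX, ← hY, ← hXY]
    exact eta3 P
  · refine ⟨P 0, u, (((-1 * η : ℝ):ℂ) * I * u), hM (-1) (by norm_num), ?_⟩
    have e2 : P 2 = fr (P 0) u (((-1 * η : ℝ):ℂ) * I * u) vx vy := by
      rw [hXY, hX, hY, hv1]; unfold fr; push_cast; ring
    rw [← e0, ← e1, ← e2]
    exact eta3 P

/-- all triangles with sides proportional to `x` (rational factor) are tileable -/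
def TT (a : Fin 3 → ℝ) (x : Fin 3 → ℝ) : Prop :=
  ∀ P : Fin 3 → ℂ, AffineIndependent ℝ P → ∀ ρ : ℚ, 0 < ρ → (∀ k, side P k = ρ * x k) →
    Tl a (tri P)

/-- cevian through the vertex `0` -/
theorem cevian {P : Fin 3 → ℂ} (hP : AffineIndependent ℝ P) {t : ℝ} (ht0 : 0 < t) (ht1 : t < 1)
    {D : ℂ} (hD : D = (1 - t : ℝ) * P 1 + (t:ℝ) * P 2) :
    tri P = tri ![P 0, P 1, D] ∪ tri ![P 0, D, P 2] ∧
    Disjoint (interior (tri ![P 0, P 1, D])) (interior (tri ![P 0, D, P 2])) ∧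
    AffineIndependent ℝ ![P 0, P 1, D] ∧ AffineIndependent ℝ ![P 0, D, P 2] ∧
    dist (P 1) D = t * side P 0 ∧ dist D (P 2) = (1 - t) * side P 0 ∧
    dist (P 0) D ^ 2 = (1 - t) * side P 2 ^ 2 + t * side P 1 ^ 2 - t * (1 - t) * side P 0 ^ 2 := by
  obtain ⟨s0, s1, s2⟩ := side_eq3 P
  have hcr : cr (P 1 - P 0) (P 2 - P 0) ≠ 0 := cr_ne hP 0
  have e0 : P 0 = fr (P 0) (P 1 - P 0) (P 2 - P 0) 0 0 := by unfold fr; simp
  have e1 : P 1 = fr (P 0) (P 1 - P 0) (P 2 - P 0) 1 0 := by unfold fr; push_cast; ring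
  have e2 : P 2 = fr (P 0) (P 1 - P 0) (P 2 - P 0) 0 1 := by unfold fr; push_cast; ring
  have e3 : D = fr (P 0) (P 1 - P 0) (P 2 - P 0) (1 - t) t := by
    rw [hD]; unfold fr; push_cast; ring
  have g1 : ![P 0, P 1, D] = ![fr (P 0) (P 1 - P 0) (P 2 - P 0) 0 0,
      fr (P 0) (P 1 - P 0) (P 2 - P 0) 1 0, fr (P 0) (P 1 - P 0) (P 2 - P 0) (1 - t) t] := by
    rw [← e0, ← e1, ← e3]
  have g2 : ![P 0, D, P 2] = ![fr (P 0) (P 1 - P 0) (P 2 - P 0) 0 0,
      fr (P 0) (P 1 - P 0) (P 2 - P 0) (1 - t) t, fr (P 0) (P 1 - P 0) (P 2 - P 0) 0 1] := by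
    rw [← e0, ← e2, ← e3]
  have g3 : P = ![fr (P 0) (P 1 - P 0) (P 2 - P 0) 0 0,
      fr (P 0) (P 1 - P 0) (P 2 - P 0) 1 0, fr (P 0) (P 1 - P 0) (P 2 - P 0) 0 1] := by
    rw [← e0, ← e1, ← e2]; exact eta3 P
  have D1 : (0:ℝ) < (1 - 0) * (t - 0) - ((1 - t) - 0) * (0 - 0) := by
    have : (1 - 0) * (t - 0) - ((1 - t) - 0) * (0 - 0) = t := by ring
    rw [this]; exact ht0
  have D2 : (0:ℝ) < ((1 - t) - 0) * (1 - 0) - (0 - 0) * (t - 0) := by
    have : ((1 - t) - 0) * (1 - 0) - (0 - 0) * (t - 0) = 1 - t := by ring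
    rw [this]; linarith
  have D3 : (0:ℝ) < (1 - 0) * (1 - 0) - (0 - 0) * (0 - 0) := by norm_num
  have T1 := tri_fr (z0 := P 0) hcr D1
  have T2 := tri_fr (z0 := P 0) hcr D2
  have T3 := tri_fr (z0 := P 0) hcr D3
  rw [← g1] at T1
  rw [← g2] at T2
  rw [← g3] at T3
  refine ⟨?_, ?_, ?_, ?_, ?_, ?_, ?_⟩
  · rw [T1, T2, T3, ← Rg_or]
    apply Rg_congr
    intro X Y
    have c1 : (1 - 0) * (Y - 0) - (X - 0) * (0 - 0) = Y := by ring
    have c2 : (0 - 1) * (Y - 0) - (X - 1) * (1 - 0) = 1 - X - Y := by ring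
    have c3 : (0 - 0) * (Y - 1) - (X - 0) * (0 - 1) = X := by ring
    have c4 : (1 - t - 1) * (Y - 0) - (X - 1) * (t - 0) = t * (1 - X - Y) := by ring
    have c5 : (0 - (1 - t)) * (Y - t) - (X - (1 - t)) * (0 - t) = t * X - (1 - t) * Y := by ring
    have c6 : (1 - t - 0) * (Y - 0) - (X - 0) * (t - 0) = (1 - t) * Y - t * X := by ring
    have c7 : (0 - (1 - t)) * (Y - t) - (X - (1 - t)) * (1 - t) = (1 - t) * (1 - X - Y) := by ring
    rw [c1, c2, c3, c4, c5, c6, c7]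
    have ht1' : 0 < 1 - t := by linarith
    constructor
    · rintro ⟨h1, h2, h3⟩
      rcases le_total ((1 - t) * Y) (t * X) with h4 | h4
      · exact Or.inl ⟨h1, by positivity, by linarith⟩
      · exact Or.inr ⟨by linarith, by positivity, h3⟩
    · rintro (⟨h1, h2, h3⟩ | ⟨h1, h2, h3⟩)
      · have h4 := nonneg_of_mul_nonneg_right h2 ht0
        refine ⟨h1, h4, ?_⟩
        have h5 : 0 ≤ t * X := by
          have : 0 ≤ (1 - t) * Y := by positivity
          linarith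
        exact nonneg_of_mul_nonneg_right h5 ht0
      · have h4 := nonneg_of_mul_nonneg_right h2 ht1'
        refine ⟨?_, h4, h3⟩
        have h5 : 0 ≤ (1 - t) * Y := by
          have : 0 ≤ t * X := by positivity
          linarith
        exact nonneg_of_mul_nonneg_right h5 ht1'
  · rw [T1, T2]
    apply sep hcr (-t) (1 - t) 0 (Or.inl (by linarith))
    · rintro X Y ⟨h1, h2, h3⟩
      have c5 : (0 - (1 - t)) * (Y - t) - (X - (1 - t)) * (0 - t) = t * X - (1 - t) * Y := by ring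
      rw [c5] at h3
      linarith
    · rintro X Y ⟨h1, h2, h3⟩
      have c6 : (1 - t - 0) * (Y - 0) - (X - 0) * (t - 0) = (1 - t) * Y - t * X := by ring
      rw [c6] at h1
      linarith
  · rw [g1]; exact ai_fr hcr D1.ne'
  · rw [g2]; exact ai_fr hcr D2.ne'
  · rw [s0, dist_eq_norm, dist_eq_norm, hD]
    have : P 1 - (((1 - t : ℝ):ℂ) * P 1 + (t:ℝ) * P 2) = (t:ℂ) * (P 1 - P 2) := by
      push_cast; ring
    rw [this, norm_mul, Complex.norm_real, Real.norm_eq_abs, abs_of_pos ht0]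
  · rw [s0, dist_eq_norm, dist_eq_norm, hD]
    have : (((1 - t : ℝ):ℂ) * P 1 + (t:ℝ) * P 2) - P 2 = ((1 - t : ℝ):ℂ) * (P 1 - P 2) := by
      push_cast; ring
    rw [this, norm_mul, Complex.norm_real, Real.norm_eq_abs, abs_of_pos (by linarith)]
  · rw [s0, s1, s2, hD]
    have e : ∀ z w : ℂ, dist z w ^ 2 = (z.re - w.re)^2 + (z.im - w.im)^2 := by
      intro z w
      rw [Complex.dist_eq, ← Complex.normSq_eq_norm_sq, Complex.normSq_apply]
      simp; ring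
    rw [e, e, e, e]
    simp only [Complex.add_re, Complex.add_im, Complex.re_ofReal_mul, Complex.im_ofReal_mul]
    ring

end Pool.Agent.Helper5.SqH
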