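import Pool.Agent.Helper5.SqH.Basic

/-!
Lattice tilings of parallelograms and triangles; the class `Tl`.
-/

open Set Complex Filter Topology

namespace Pool.Agent.Helper5.SqH
open Pool.Agent.Helper27.Sq

/-- the cells of the unit lattice -/
def cellP : ℕ × ℕ × Bool → ℝ → ℝ → Prop
  | (i, j, false), X, Y => (i:ℝ) ≤ X ∧ (j:ℝ) ≤ Y ∧ X + Y ≤ i + j + 1
  | (i, j, true), X, Y => X ≤ i + 1 ∧ Y ≤ j + 1 ∧ (i:ℝ) + j + 1 ≤ X + Y

noncomputable def cellQ (z0 u v : ℂ) : ℕ × ℕ × Bool → Fin 3 → ℂ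
  | (i, j, false) => ![fr z0 u v i j, fr z0 u v (i+1) j, fr z0 u v i (j+1)]
  | (i, j, true) => ![fr z0 u v (i+1) (j+1), fr z0 u v i (j+1), fr z0 u v (i+1) j]

theorem cellP_box {c : ℕ × ℕ × Bool} {X Y : ℝ} (h : cellP c X Y) :
    (c.1 : ℝ) ≤ X ∧ X ≤ c.1 + 1 ∧ (c.2.1 : ℝ) ≤ Y ∧ Y ≤ c.2.1 + 1 := by
  obtain ⟨i, j, ε⟩ := c
  cases ε <;> simp only [cellP] at h <;> obtain ⟨h1, h2, h3⟩ := h <;>
    refine ⟨?_, ?_, ?_, ?_⟩ <;> simp only <;> linarith

section
variable {z0 u v : ℂ} (h : cr u v ≠ 0)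

include h in
theorem cellQ_tri (c : ℕ × ℕ × Bool) : tri (cellQ z0 u v c) = Rg z0 u v (cellP c) := by
  obtain ⟨i, j, ε⟩ := c
  cases ε
  · simp only [cellQ]
    rw [tri_fr h (by ring_nf; norm_num)]
    apply Rg_congr
    intro X Y
    simp only [cellP]
    constructor
    · rintro ⟨h1, h2, h3⟩
      refine ⟨?_, ?_, ?_⟩ <;> nlinarith
    · rintro ⟨h1, h2, h3⟩
      refine ⟨?_, ?_, ?_⟩ <;> nlinarith
  · simp only [cellQ]
    rw [tri_fr h (by ring_nf; norm_num)]
    apply Rg_congr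
    intro X Y
    simp only [cellP]
    constructor
    · rintro ⟨h1, h2, h3⟩
      refine ⟨?_, ?_, ?_⟩ <;> nlinarith
    · rintro ⟨h1, h2, h3⟩
      refine ⟨?_, ?_, ?_⟩ <;> nlinarith

include h in
theorem cellQ_ai (c : ℕ × ℕ × Bool) : AffineIndependent ℝ (cellQ z0 u v c) := by
  obtain ⟨i, j, ε⟩ := c
  cases ε
  · exact ai_fr h (by ring_nf; norm_num)
  · exact ai_fr h (by ring_nf; norm_num)

theorem cellQ_side (z0 u v : ℂ) (c : ℕ × ℕ × Bool) (k : Fin 3) :
    side (cellQ z0 u v c) k = side ![0, u, v] k := by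
  obtain ⟨i, j, ε⟩ := c
  have h0 : ((1:Fin 3) + 1 = 2) := rfl
  have h1 : ((1:Fin 3) + 2 = 0) := rfl
  have h2 : ((2:Fin 3) + 1 = 0) := rfl
  have h3 : ((2:Fin 3) + 2 = 1) := rfl
  have h4 : ((0:Fin 3) + 1 = 1) := rfl
  have h5 : ((0:Fin 3) + 2 = 2) := rfl
  have key : ∀ {a b c d : ℂ}, a - b = c - d ∨ a - b = -(c - d) → dist a b = dist c d := by
    intro a b c d hh
    rw [dist_eq_norm, dist_eq_norm]
    rcases hh with hh | hh
    · rw [hh]
    · rw [hh, norm_neg]
  cases ε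
  · fin_cases k
    all_goals
      simp only [cellQ, side, Fin.zero_eta, Fin.mk_one, Fin.reduceFinMk, h0, h1, h2, h3, h4, h5,
        Matrix.cons_val_zero, Matrix.cons_val_one, Matrix.cons_val]
      apply key
      left
      unfold fr
      push_cast
      ring
  · fin_cases k
    all_goals
      simp only [cellQ, side, Fin.zero_eta, Fin.mk_one, Fin.reduceFinMk, h0, h1, h2, h3, h4, h5,
        Matrix.cons_val_zero, Matrix.cons_val_one, Matrix.cons_val]
      apply key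
      right
      unfold fr
      push_cast
      ring

include h in
theorem cell_disj {c c' : ℕ × ℕ × Bool} (hc : c ≠ c') :
    Disjoint (interior (Rg z0 u v (cellP c))) (interior (Rg z0 u v (cellP c'))) := by
  rcases lt_trichotomy c.1 c'.1 with h1 | h1 | h1
  · apply sep h 1 0 (-(c.1 + 1)) (Or.inl one_ne_zero)
    · intro X Y hX
      have := cellP_box hX
      linarith
    · intro X Y hX
      have := cellP_box hX
      have h2 : (c.1:ℝ) + 1 ≤ c'.1 := by exact_mod_cast h1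
      linarith
  · rcases lt_trichotomy c.2.1 c'.2.1 with h2 | h2 | h2
    · apply sep h 0 1 (-(c.2.1 + 1)) (Or.inr one_ne_zero)
      · intro X Y hX
        have := cellP_box hX
        linarith
      · intro X Y hX
        have := cellP_box hX
        have h2 : (c.2.1:ℝ) + 1 ≤ c'.2.1 := by exact_mod_cast h2
        linarith
    · obtain ⟨i, j, ε⟩ := c
      obtain ⟨i', j', ε'⟩ := c'
      simp only at h1 h2
      subst h1 h2
      have hε : ε ≠ ε' := fun e => hc (by rw [e])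
      cases ε <;> cases ε'
      · exact absurd rfl hε
      · apply sep h 1 1 (-(i + j + 1)) (Or.inl one_ne_zero)
        · rintro X Y ⟨_, _, hX⟩
          linarith
        · rintro X Y ⟨_, _, hX⟩
          linarith
      · apply Disjoint.symm
        apply sep h 1 1 (-(i + j + 1)) (Or.inl one_ne_zero)
        · rintro X Y ⟨_, _, hX⟩
          linarith
        · rintro X Y ⟨_, _, hX⟩
          linarith
      · exact absurd rfl hε
    · apply Disjoint.symm
      apply sep h 0 1 (-(c'.2.1 + 1)) (Or.inr one_ne_zero)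
      · intro X Y hX
        have := cellP_box hX
        linarith
      · intro X Y hX
        have := cellP_box hX
        have h2 : (c'.2.1:ℝ) + 1 ≤ c.2.1 := by exact_mod_cast h2
        linarith
  · apply Disjoint.symm
    apply sep h 1 0 (-(c'.1 + 1)) (Or.inl one_ne_zero)
    · intro X Y hX
      have := cellP_box hX
      linarith
    · intro X Y hX
      have := cellP_box hX
      have h2 : (c'.1:ℝ) + 1 ≤ c.1 := by exact_mod_cast h1
      linarith

include h in
theorem lattice (I : Finset (ℕ × ℕ × Bool)) :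
    TileBy (side ![0, u, v]) (Rg z0 u v (fun X Y => ∃ c ∈ I, cellP c X Y)) := by
  refine ⟨I, inferInstance, fun c => cellQ z0 u v c.1, fun c => cellQ_ai h _,
    fun c k => cellQ_side _ _ _ _ _, ?_, ?_⟩
  · ext z
    simp only [cellQ_tri h, mem_iUnion, Rg, mem_ofPred_eq]
    constructor
    · rintro ⟨c, X, Y, h1, h2⟩
      exact ⟨X, Y, ⟨c.1, c.2, h1⟩, h2⟩
    · rintro ⟨X, Y, ⟨c, hc, h1⟩, h2⟩
      exact ⟨⟨c, hc⟩, X, Y, h1, h2⟩
  · intro c c' hcc
    simp only [cellQ_tri h]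
    exact cell_disj h (fun e => hcc (Subtype.ext e))

include h in
theorem par_tile {m n : ℕ} (hm : 0 < m) (hn : 0 < n) :
    TileBy (side ![0, u, v]) (Rg z0 u v (fun X Y => 0 ≤ X ∧ X ≤ m ∧ 0 ≤ Y ∧ Y ≤ n)) := by
  have := lattice (z0 := z0) h (Finset.range m ×ˢ Finset.range n ×ˢ (Finset.univ : Finset Bool))
  rwa [Rg_congr] at this
  intro X Y
  constructor
  · rintro ⟨c, hc, h1⟩
    simp only [Finset.mem_product, Finset.mem_range, Finset.mem_univ, and_true] at hc
    have h2 := cellP_box h1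
    have h3 : (c.1:ℝ) + 1 ≤ m := by exact_mod_cast hc.1
    have h4 : (c.2.1:ℝ) + 1 ≤ n := by exact_mod_cast hc.2
    have h5 : (0:ℝ) ≤ c.1 := Nat.cast_nonneg _
    have h6 : (0:ℝ) ≤ c.2.1 := Nat.cast_nonneg _
    refine ⟨?_, ?_, ?_, ?_⟩ <;> linarith
  · rintro ⟨h1, h2, h3, h4⟩
    have key : ∀ (x : ℝ) (m : ℕ), 0 < m → 0 ≤ x → x ≤ m →
        ∃ i : ℕ, i < m ∧ (i:ℝ) ≤ x ∧ x ≤ i + 1 := by
      intro x m hm hx hxm
      by_cases hlt : x < m
      · refine ⟨⌊x⌋₊, ?_, Nat.floor_le hx, (Nat.lt_floor_add_one x).le⟩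
        exact (Nat.floor_lt hx).2 hlt
      · refine ⟨m - 1, by omega, ?_, ?_⟩
        · have : ((m - 1 : ℕ):ℝ) = m - 1 := by
            rw [Nat.cast_sub (by omega)]; simp
          rw [this]; linarith
        · have : ((m - 1 : ℕ):ℝ) = m - 1 := by
            rw [Nat.cast_sub (by omega)]; simp
          rw [this]; linarith
    obtain ⟨i, i1, i2, i3⟩ := key X m hm h1 h2
    obtain ⟨j, j1, j2, j3⟩ := key Y n hn h3 h4
    by_cases hs : X + Y ≤ i + j + 1
    · exact ⟨(i, j, false), by simp [i1, j1], i2, j2, hs⟩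
    · exact ⟨(i, j, true), by simp [i1, j1], i3, j3, by push Not at hs; linarith⟩

include h in
theorem tri_tile {m : ℕ} (hm : 0 < m) :
    TileBy (side ![0, u, v]) (Rg z0 u v (fun X Y => 0 ≤ X ∧ 0 ≤ Y ∧ X + Y ≤ m)) := by
  have := lattice (z0 := z0) h ((Finset.range m ×ˢ Finset.range m ×ˢ
    (Finset.univ : Finset Bool)).filter
    (fun c => (c.2.2 = false ∧ c.1 + c.2.1 < m) ∨ (c.2.2 = true ∧ c.1 + c.2.1 + 1 < m)))
  rwa [Rg_congr] at this
  intro X Y
  constructor
  · rintro ⟨⟨i, j, ε⟩, hc, h1⟩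
    simp only [Finset.mem_filter, Finset.mem_product, Finset.mem_range, Finset.mem_univ, and_true]
      at hc
    have h2 := cellP_box h1
    simp only at h2
    have h5 : (0:ℝ) ≤ i := Nat.cast_nonneg _
    have h6 : (0:ℝ) ≤ j := Nat.cast_nonneg _
    rcases hc.2 with ⟨rfl, h3⟩ | ⟨rfl, h3⟩
    · obtain ⟨e1, e2, e3⟩ := h1
      have h4 : (i:ℝ) + j + 1 ≤ m := by exact_mod_cast h3
      refine ⟨?_, ?_, ?_⟩ <;> linarith
    · have h4 : (i:ℝ) + j + 1 + 1 ≤ m := by exact_mod_cast h3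
      refine ⟨?_, ?_, ?_⟩ <;> linarith
  · rintro ⟨h1, h2, h3⟩
    set i := ⌊X⌋₊ with hi
    set j := ⌊Y⌋₊ with hj
    have i1 : (i:ℝ) ≤ X := Nat.floor_le h1
    have i2 : X < i + 1 := Nat.lt_floor_add_one X
    have j1 : (j:ℝ) ≤ Y := Nat.floor_le h2
    have j2 : Y < j + 1 := Nat.lt_floor_add_one Y
    by_cases hs : X + Y ≤ i + j + 1
    · by_cases hlt : i + j < m
      · refine ⟨(i, j, false), ?_, i1, j1, hs⟩
        simp only [Finset.mem_filter, Finset.mem_product, Finset.mem_range, Finset.mem_univ,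
          and_true, true_and, Bool.false_eq_true, false_and, or_false]
        omega
      · have hm2 : (m:ℝ) ≤ i + j := by exact_mod_cast (not_lt.1 hlt)
        have hX : X = i := by linarith
        have hY : Y = j := by linarith
        have hmm : i + j = m := by
          have : (i:ℝ) + j = m := by linarith
          exact_mod_cast this
        rcases Nat.eq_zero_or_pos i with h0 | h0
        · have hj0 : 0 < j := by omega
          refine ⟨(0, j - 1, false), ?_, ?_, ?_, ?_⟩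
          · simp only [Finset.mem_filter, Finset.mem_product, Finset.mem_range, Finset.mem_univ,
              and_true, true_and, Bool.false_eq_true, false_and, or_false]
            omega
          · simpa using h1
          · have : ((j - 1 : ℕ):ℝ) = j - 1 := by rw [Nat.cast_sub (by omega)]; simp
            rw [this]; linarith
          · have : ((j - 1 : ℕ):ℝ) = j - 1 := by rw [Nat.cast_sub (by omega)]; simp
            rw [this, hX, hY, h0]; push_cast; linarith
        · refine ⟨(i - 1, j, false), ?_, ?_, ?_, ?_⟩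
          · simp only [Finset.mem_filter, Finset.mem_product, Finset.mem_range, Finset.mem_univ,
              and_true, true_and, Bool.false_eq_true, false_and, or_false]
            omega
          · have : ((i - 1 : ℕ):ℝ) = i - 1 := by rw [Nat.cast_sub (by omega)]; simp
            rw [this]; linarith
          · exact j1
          · have : ((i - 1 : ℕ):ℝ) = i - 1 := by rw [Nat.cast_sub (by omega)]; simp
            rw [this, hX, hY]; linarith
    · push Not at hs
      refine ⟨(i, j, true), ?_, i2.le, j2.le, hs.le⟩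
      have h4 : (i:ℝ) + j + 1 < m := by linarith
      have h5 : i + j + 1 < m := by exact_mod_cast h4
      simp only [Finset.mem_filter, Finset.mem_product, Finset.mem_range, Finset.mem_univ,
        and_true, true_and, Bool.true_eq_false, false_and, false_or]
      omega

end

theorem eta3 (P : Fin 3 → ℂ) : P = ![P 0, P 1, P 2] := by
  funext k; fin_cases k <;> rfl

/-- the `m²`-lemma -/
theorem sq_tile {P : Fin 3 → ℂ} (hP : AffineIndependent ℝ P) {m : ℕ} (hm : 0 < m) :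
    TileBy (fun k => side P k / m) (tri P) := by
  have hm' : (0:ℝ) < m := by exact_mod_cast hm
  have hmc : (m:ℂ) ≠ 0 := by exact_mod_cast hm.ne'
  set u : ℂ := (P 1 - P 0) / m with hu
  set v : ℂ := (P 2 - P 0) / m with hv
  have hcr : cr u v ≠ 0 := by
    have h1 := cr_ne hP 0
    have h2 : cr u v = cr (P (0+1) - P 0) (P (0+2) - P 0) / m^2 := by
      rw [hu, hv]
      have e1 : (P 1 - P 0) / (m:ℂ) = ((1/m : ℝ):ℂ) * (P 1 - P 0) := by
        push_cast; field_simp
      have e2 : (P 2 - P 0) / (m:ℂ) = ((1/m : ℝ):ℂ) * (P 2 - P 0) := by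
        push_cast; field_simp
      rw [e1, e2]
      unfold cr
      simp only [Complex.re_ofReal_mul, Complex.im_ofReal_mul, zero_add]
      field_simp
    rw [h2]
    exact div_ne_zero h1 (by positivity)
  have h1 := tri_tile (z0 := P 0) hcr hm
  have h2 : tri P = Rg (P 0) u v (fun X Y => 0 ≤ X ∧ 0 ≤ Y ∧ X + Y ≤ m) := by
    have e0 : P 0 = fr (P 0) u v 0 0 := by unfold fr; simp
    have e1 : P 1 = fr (P 0) u v m 0 := by
      unfold fr; rw [hu]; push_cast; field_simp; ring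
    have e2 : P 2 = fr (P 0) u v 0 m := by
      unfold fr; rw [hv]; push_cast; field_simp; ring
    have e3 : P = ![fr (P 0) u v 0 0, fr (P 0) u v m 0, fr (P 0) u v 0 m] := by
      rw [← e0, ← e1, ← e2]; exact eta3 P
    conv_lhs => rw [e3]
    rw [tri_fr hcr (by ring_nf; positivity)]
    apply Rg_congr
    intro X Y
    constructor
    · rintro ⟨a1, a2, a3⟩
      have b1 : 0 ≤ m * Y := by linarith
      have b2 : 0 ≤ m * (m - (X + Y)) := by linarith
      have b3 : 0 ≤ m * X := by linarith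
      exact ⟨nonneg_of_mul_nonneg_right b3 hm', nonneg_of_mul_nonneg_right b1 hm',
        by have := nonneg_of_mul_nonneg_right b2 hm'; linarith⟩
    · rintro ⟨a1, a2, a3⟩
      refine ⟨?_, ?_, ?_⟩
      · have : 0 ≤ m * Y := by positivity
        linarith
      · have : 0 ≤ m * (m - (X + Y)) := mul_nonneg hm'.le (by linarith)
        linarith
      · have : 0 ≤ m * X := by positivity
        linarith
  have h3 : side ![0, u, v] = fun k => side P k / m := by
    funext k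
    have e : ∀ a b : ℂ, dist a b = ‖a - b‖ := fun a b => dist_eq_norm a b
    have f0 : ((1:Fin 3) + 1 = 2) := rfl
    have f1 : ((1:Fin 3) + 2 = 0) := rfl
    have f2 : ((2:Fin 3) + 1 = 0) := rfl
    have f3 : ((2:Fin 3) + 2 = 1) := rfl
    have f4 : ((0:Fin 3) + 1 = 1) := rfl
    have f5 : ((0:Fin 3) + 2 = 2) := rfl
    have g : ∀ z : ℂ, ‖z / (m:ℂ)‖ = ‖z‖ / m := by
      intro z; rw [norm_div]; simp
    fin_cases k
    · simp only [side, Fin.zero_eta, f4, f5, Matrix.cons_val_one, Matrix.cons_val, e]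
      rw [← g]; congr 1; rw [hu, hv]; ring
    · simp only [side, Fin.mk_one, f0, f1, Matrix.cons_val_zero, Matrix.cons_val, e]
      rw [← g]; congr 1; rw [hv]; ring
    · simp only [side, Fin.reduceFinMk, f2, f3, Matrix.cons_val_zero, Matrix.cons_val_one, e]
      rw [← g]; congr 1; rw [hu]; ring
  rw [h3] at h1
  rw [h2]
  exact h1

/-- tileable by the triangle with sides `a / k`, for all multiples `k` of some `k0` -/
def Tl (a : Fin 3 → ℝ) (S : Set ℂ) : Prop :=
  ∃ k0 : ℕ, 0 < k0 ∧ ∀ k : ℕ, 0 < k → k0 ∣ k → TileBy (fun j => a j / k) S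

theorem Tl.union {a : Fin 3 → ℝ} {S T : Set ℂ} (h1 : Tl a S) (h2 : Tl a T)
    (hd : Disjoint (interior S) (interior T)) : Tl a (S ∪ T) := by
  obtain ⟨k1, a1, a2⟩ := h1
  obtain ⟨k2, b1, b2⟩ := h2
  refine ⟨k1 * k2, Nat.mul_pos a1 b1, fun k hk hd' => ?_⟩
  exact (a2 k hk (dvd_of_mul_right_dvd hd')).union (b2 k hk (dvd_of_mul_left_dvd hd')) hd

theorem rat_mul {ρ : ℚ} (hρ : 0 < ρ) {k : ℕ} (hk : 0 < k) (hd : ρ.den ∣ k) :
    ∃ m : ℕ, 0 < m ∧ (m:ℝ) = ρ * k := by
  obtain ⟨t, rfl⟩ := hd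
  have hn : 0 < ρ.num := Rat.num_pos.2 hρ
  have ht : 0 < t := Nat.pos_of_ne_zero (by rintro rfl; simp at hk)
  refine ⟨ρ.num.toNat * t, Nat.mul_pos (by omega) ht, ?_⟩
  have h1 : ((ρ.num.toNat : ℕ) : ℝ) = (ρ.num : ℝ) := by
    have : ((ρ.num.toNat : ℕ) : ℤ) = ρ.num := Int.toNat_of_nonneg hn.le
    exact_mod_cast congrArg (fun z : ℤ => (z:ℝ)) this
  have h2 : (ρ:ℝ) * ρ.den = ρ.num := by
    exact_mod_cast Rat.mul_den_eq_num ρ
  push_cast
  rw [h1, ← h2]
  ring

theorem Tl_tri {a : Fin 3 → ℝ} {P : Fin 3 → ℂ} (hP : AffineIndependent ℝ P)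
    (σ : Equiv.Perm (Fin 3)) {ρ : ℚ} (hρ : 0 < ρ) (hs : ∀ k, side P k = ρ * a (σ k)) :
    Tl a (tri P) := by
  refine ⟨ρ.den, ρ.den_pos, fun k hk hd => ?_⟩
  obtain ⟨m, hm, hmk⟩ := rat_mul hρ hk hd
  have h1 := sq_tile hP hm
  apply TileBy.perm σ
  convert h1 using 1
  funext j
  rw [hs, hmk]
  have : (ρ:ℝ) ≠ 0 := by exact_mod_cast hρ.ne'
  have : (k:ℝ) ≠ 0 := by exact_mod_cast hk.ne'
  simp only [Function.comp_apply]
  field_simp

/-- change of frame -/
theorem Rg_change {z0 u v : ℂ} (h : cr u v ≠ 0) {x0 y0 p q r s : ℝ}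
    (h' : cr (fr 0 u v p q) (fr 0 u v r s) ≠ 0) {A B : ℝ → ℝ → Prop}
    (hAB : ∀ X Y, B X Y ↔ A (x0 + X * p + Y * r) (y0 + X * q + Y * s)) :
    Rg (fr z0 u v x0 y0) (fr 0 u v p q) (fr 0 u v r s) B = Rg z0 u v A := by
  have e : ∀ X Y : ℝ, fr (fr z0 u v x0 y0) (fr 0 u v p q) (fr 0 u v r s) X Y =
      fr z0 u v (x0 + X * p + Y * r) (y0 + X * q + Y * s) := by
    intro X Y; unfold fr; push_cast; ring
  ext z
  constructor
  · rintro ⟨X, Y, h1, h2⟩
    exact ⟨_, _, (hAB X Y).1 h1, by rw [h2, e]⟩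
  · rintro ⟨x, y, h1, h2⟩
    obtain ⟨X, Y, h3⟩ := fr_surj (z0 := fr z0 u v x0 y0) h' z
    have h4 : fr z0 u v x y = fr z0 u v (x0 + X * p + Y * r) (y0 + X * q + Y * s) := by
      rw [← e, ← h3, h2]
    obtain ⟨h5, h6⟩ := fr_inj h h4
    refine ⟨X, Y, (hAB X Y).2 ?_, h3⟩
    rw [← h5, ← h6]; exact h1

theorem Tl_par {a : Fin 3 → ℝ} {z0 w1 w2 : ℂ} (h : cr w1 w2 ≠ 0) (σ : Equiv.Perm (Fin 3))
    (hs : ∀ k, side ![0, w1, w2] k = a (σ k)) {α β : ℚ} (hα : 0 < α) (hβ : 0 < β) :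
    Tl a (Rg z0 w1 w2 (fun X Y => 0 ≤ X ∧ X ≤ α ∧ 0 ≤ Y ∧ Y ≤ β)) := by
  refine ⟨α.den * β.den, Nat.mul_pos α.den_pos β.den_pos, fun k hk hd => ?_⟩
  obtain ⟨m, hm, hmk⟩ := rat_mul hα hk (dvd_of_mul_right_dvd hd)
  obtain ⟨n, hn, hnk⟩ := rat_mul hβ hk (dvd_of_mul_left_dvd hd)
  have hk' : (0:ℝ) < k := by exact_mod_cast hk
  have e1 : fr 0 w1 w2 (1/k) 0 = w1 / k := by unfold fr; push_cast; ring
  have e2 : fr 0 w1 w2 0 (1/k) = w2 / k := by unfold fr; push_cast; ring
  have hcr : cr (fr 0 w1 w2 (1/k) 0) (fr 0 w1 w2 0 (1/k)) ≠ 0 := by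
    have : cr (fr 0 w1 w2 (1/k) 0) (fr 0 w1 w2 0 (1/k)) = cr w1 w2 / k^2 := by
      unfold cr fr
      simp only [Complex.add_re, Complex.add_im, Complex.re_ofReal_mul, Complex.im_ofReal_mul,
        Complex.zero_re, Complex.zero_im]
      field_simp
      ring
    rw [this]
    exact div_ne_zero h (by positivity)
  have h1 := par_tile (z0 := fr z0 w1 w2 0 0) hcr hm hn
  rw [Rg_change (z0 := z0) (x0 := 0) (y0 := 0) h hcr
    (A := fun X Y => 0 ≤ X ∧ X ≤ α ∧ 0 ≤ Y ∧ Y ≤ β)] at h1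
  · apply TileBy.perm σ
    convert h1 using 1
    funext j
    simp only [Function.comp_apply]
    rw [← hs, e1, e2]
    have g : ∀ z : ℂ, ‖z / (k:ℂ)‖ = ‖z‖ / k := by
      intro z; rw [norm_div]; simp
    have e : ∀ a b : ℂ, dist a b = ‖a - b‖ := fun a b => dist_eq_norm a b
    have f0 : ((1:Fin 3) + 1 = 2) := rfl
    have f1 : ((1:Fin 3) + 2 = 0) := rfl
    have f2 : ((2:Fin 3) + 1 = 0) := rfl
    have f3 : ((2:Fin 3) + 2 = 1) := rfl
    have f4 : ((0:Fin 3) + 1 = 1) := rfl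
    have f5 : ((0:Fin 3) + 2 = 2) := rfl
    fin_cases j
    · simp only [side, Fin.zero_eta, f4, f5, Matrix.cons_val_one, Matrix.cons_val, e]
      rw [← g]; congr 1; ring
    · simp only [side, Fin.mk_one, f0, f1, Matrix.cons_val_zero, Matrix.cons_val, e]
      rw [← g]; congr 1; ring
    · simp only [side, Fin.reduceFinMk, f2, f3, Matrix.cons_val_zero, Matrix.cons_val_one, e]
      rw [← g]; congr 1; ring
  · intro X Y
    rw [hmk, hnk]
    constructor
    · rintro ⟨b1, b2, b3, b4⟩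
      refine ⟨by positivity, ?_, by positivity, ?_⟩
      · have : X * (1/k) ≤ (α * k) * (1/k) := mul_le_mul_of_nonneg_right b2 (by positivity)
        have e3 : ((α:ℝ) * k) * (1/k) = α := by field_simp
        linarith
      · have : Y * (1/k) ≤ (β * k) * (1/k) := mul_le_mul_of_nonneg_right b4 (by positivity)
        have e3 : ((β:ℝ) * k) * (1/k) = β := by field_simp
        linarith
    · rintro ⟨b1, b2, b3, b4⟩
      have c1 : 0 + X * (1/k) + Y * 0 = X / k := by ring
      have c2 : 0 + X * 0 + Y * (1/k) = Y / k := by ring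
      rw [c1] at b1 b2
      rw [c2] at b3 b4
      refine ⟨?_, ?_, ?_, ?_⟩
      · exact (div_nonneg_iff.1 b1).elim (fun x => x.1) (fun x => absurd x.2 (not_le.2 hk'))
      · rwa [div_le_iff₀ hk'] at b2
      · exact (div_nonneg_iff.1 b3).elim (fun x => x.1) (fun x => absurd x.2 (not_le.2 hk'))
      · rwa [div_le_iff₀ hk'] at b4

end Pool.Agent.Helper5.SqH
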