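import Pool.Agent.Helper5.SqH.Strip

/-!
Cutting strips; stacking; the assembly of a triangle from two tiles and a trapezoid.
-/

open Set Complex Filter Topology

namespace Pool.Agent.Helper5.SqH
open Pool.Agent.Helper27.Sq

section
variable {a C : Fin 3 → ℚ} {e lam : ℚ} {z0 u v : ℂ}

theorem good_up (hT : RTile a C e) (hF : MFr e lam u v) (σ : Equiv.Perm (Fin 3)) {q : ℚ}
    (h : Good a z0 u v (- sl a C (σ 1)) q) : Good a z0 u v (sl a C (σ 0)) q := by
  obtain ⟨W, hW, H⟩ := h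
  have hs := sl_add_pos hT σ
  refine ⟨W + (sl a C (σ 0) + sl a C (σ 1)), by linarith, fun α β y0 y1 hy h1 h2 => ?_⟩
  have hup := Tl_up (z0 := z0) hT hF σ (α := α) hy
  obtain ⟨p0, hp0⟩ : ∃ p0 : ℚ, p0 = sl a C (σ 0) := ⟨_, rfl⟩
  obtain ⟨p1, hp1⟩ : ∃ p1 : ℚ, p1 = sl a C (σ 1) := ⟨_, rfl⟩
  simp only [← hp0, ← hp1] at H hs hup h1 h2 ⊢
  have hh : 0 < y1 - y0 := by linarith
  have hWh : 0 ≤ W * (y1 - y0) := by positivity
  have hph : 0 < (p0 + p1) * (y1 - y0) := by positivity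
  have b1 : W * (y1 - y0) < (β + q * y0) - ((α + (p0 + p1) * y1) + -p1 * y0) := by
    have : (β + q * y0) - ((α + (p0 + p1) * y1) + -p1 * y0)
      = (β + q * y0) - (α + p0 * y0) - (p0 + p1) * (y1 - y0) := by ring
    rw [this]; linarith
  have b2 : W * (y1 - y0) < (β + q * y1) - ((α + (p0 + p1) * y1) + -p1 * y1) := by
    have : (β + q * y1) - ((α + (p0 + p1) * y1) + -p1 * y1)
      = (β + q * y1) - (α + p0 * y1) := by ring
    rw [this]; linarith
  have hrest := H (α + (p0 + p1) * y1) β y0 y1 hy b1 b2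
  have hU := Tl.union hup hrest (by
    apply sep hF.crne 1 p1 (-(α + (p0 + p1) * y1)) (Or.inl one_ne_zero)
    · rintro X Y ⟨c1, c2, c3⟩
      linarith
    · rintro X Y ⟨c1, c2, c3, c4⟩
      push_cast at c3
      linarith)
  rw [← Rg_or] at hU
  rwa [Rg_congr] at hU
  intro X Y
  have hs' : (0:ℝ) < p0 + p1 := by exact_mod_cast hs
  have hy' : (y0:ℝ) < y1 := by exact_mod_cast hy
  have b1' : (0:ℝ) < (β - (α + (p0 + p1) * y1)) + (q + p1) * y0 := by
    have : (0:ℚ) < (β - (α + (p0 + p1) * y1)) + (q + p1) * y0 := by linarith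
    exact_mod_cast this
  have b2' : (0:ℝ) < (β - (α + (p0 + p1) * y1)) + (q + p1) * y1 := by
    have : (0:ℚ) < (β - (α + (p0 + p1) * y1)) + (q + p1) * y1 := by linarith
    exact_mod_cast this
  unfold St
  push_cast
  constructor
  · rintro (⟨c1, c2, c3⟩ | ⟨c1, c2, c3, c4⟩)
    · have c4 : Y ≤ y1 := by
        have : 0 ≤ (p0 + p1 : ℝ) * (y1 - Y) := by linarith
        have := nonneg_of_mul_nonneg_right this hs'
        linarith
      have := aff_pos hy' b1' b2' c1 c4
      exact ⟨c1, c4, c2, by linarith⟩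
    · have : 0 ≤ (p0 + p1 : ℝ) * (y1 - Y) := mul_nonneg hs'.le (by linarith)
      exact ⟨c1, c2, by linarith, c4⟩
  · rintro ⟨c1, c2, c3, c4⟩
    rcases le_total X ((α + (p0 + p1) * y1 : ℝ) - p1 * Y) with h5 | h5
    · exact Or.inl ⟨c1, c3, h5⟩
    · exact Or.inr ⟨c1, c2, by linarith, c4⟩

theorem good_down (hT : RTile a C e) (hF : MFr e lam u v) (σ : Equiv.Perm (Fin 3)) {q : ℚ}
    (h : Good a z0 u v (sl a C (σ 1)) q) : Good a z0 u v (- sl a C (σ 0)) q := by
  obtain ⟨W, hW, H⟩ := h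
  have hs := sl_add_pos hT σ
  refine ⟨W + (sl a C (σ 0) + sl a C (σ 1)), by linarith, fun α β y0 y1 hy h1 h2 => ?_⟩
  have hup := Tl_down (z0 := z0) hT hF σ (α := α) hy
  obtain ⟨p0, hp0⟩ : ∃ p0 : ℚ, p0 = sl a C (σ 0) := ⟨_, rfl⟩
  obtain ⟨p1, hp1⟩ : ∃ p1 : ℚ, p1 = sl a C (σ 1) := ⟨_, rfl⟩
  simp only [← hp0, ← hp1] at H hs hup h1 h2 ⊢
  have hh : 0 < y1 - y0 := by linarith
  have hWh : 0 ≤ W * (y1 - y0) := by positivity
  have hph : 0 < (p0 + p1) * (y1 - y0) := by positivity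
  have b1 : W * (y1 - y0) < (β + q * y0) - ((α - (p0 + p1) * y0) + p1 * y0) := by
    have : (β + q * y0) - ((α - (p0 + p1) * y0) + p1 * y0)
      = (β + q * y0) - (α + -p0 * y0) := by ring
    rw [this]; linarith
  have b2 : W * (y1 - y0) < (β + q * y1) - ((α - (p0 + p1) * y0) + p1 * y1) := by
    have : (β + q * y1) - ((α - (p0 + p1) * y0) + p1 * y1)
      = (β + q * y1) - (α + -p0 * y1) - (p0 + p1) * (y1 - y0) := by ring
    rw [this]; linarith
  have hrest := H (α - (p0 + p1) * y0) β y0 y1 hy b1 b2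
  have hU := Tl.union hup hrest (by
    apply sep hF.crne 1 (-p1) (-(α - (p0 + p1) * y0)) (Or.inl one_ne_zero)
    · rintro X Y ⟨c1, c2, c3⟩
      linarith
    · rintro X Y ⟨c1, c2, c3, c4⟩
      push_cast at c3
      linarith)
  rw [← Rg_or] at hU
  rwa [Rg_congr] at hU
  intro X Y
  have hs' : (0:ℝ) < p0 + p1 := by exact_mod_cast hs
  have hy' : (y0:ℝ) < y1 := by exact_mod_cast hy
  have b1' : (0:ℝ) < (β - (α - (p0 + p1) * y0)) + (q - p1) * y0 := by
    have : (0:ℚ) < (β - (α - (p0 + p1) * y0)) + (q - p1) * y0 := by linarith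
    exact_mod_cast this
  have b2' : (0:ℝ) < (β - (α - (p0 + p1) * y0)) + (q - p1) * y1 := by
    have : (0:ℚ) < (β - (α - (p0 + p1) * y0)) + (q - p1) * y1 := by linarith
    exact_mod_cast this
  unfold St
  push_cast
  constructor
  · rintro (⟨c1, c2, c3⟩ | ⟨c1, c2, c3, c4⟩)
    · have c4 : y0 ≤ Y := by
        have : 0 ≤ (p0 + p1 : ℝ) * (Y - y0) := by linarith
        have := nonneg_of_mul_nonneg_right this hs'
        linarith
      have := aff_pos hy' b1' b2' c4 c1
      exact ⟨c4, c1, by linarith, by linarith⟩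
    · have : 0 ≤ (p0 + p1 : ℝ) * (Y - y0) := mul_nonneg hs'.le (by linarith)
      exact ⟨c1, c2, by linarith, c4⟩
  · rintro ⟨c1, c2, c3, c4⟩
    rcases le_total X ((α - (p0 + p1) * y0 : ℝ) + p1 * Y) with h5 | h5
    · exact Or.inl ⟨c2, by linarith, h5⟩
    · exact Or.inr ⟨c1, c2, by linarith, c4⟩

/-- stacking: all rational trapezoids with good slopes are tileable -/
theorem Good.trap (hF : MFr e lam u v) {p q : ℚ} (h : Good a z0 u v p q)
    {α β y0 y1 : ℚ} (hy : y0 < y1) (h1 : 0 < (β + q * y0) - (α + p * y0))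
    (h2 : 0 < (β + q * y1) - (α + p * y1)) : Tl (rs a) (Rg z0 u v (St α p β q y0 y1)) := by
  obtain ⟨W, hW, H⟩ := h
  have hh : 0 < y1 - y0 := by linarith
  obtain ⟨μ, hμ, m1, m2⟩ : ∃ μ : ℚ, 0 < μ ∧ μ ≤ (β - α) + (q - p) * y0 ∧
      μ ≤ (β - α) + (q - p) * y1 := by
    refine ⟨min ((β - α) + (q - p) * y0) ((β - α) + (q - p) * y1), lt_min ?_ ?_, min_le_left _ _,
      min_le_right _ _⟩ <;> linarith
  have hL : ∀ Y : ℚ, y0 ≤ Y → Y ≤ y1 → μ ≤ (β - α) + (q - p) * Y := by
    intro Y hY0 hY1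
    have e1 : (y1 - y0) * ((β - α) + (q - p) * Y - μ) = (y1 - Y) * ((β - α) + (q - p) * y0 - μ)
      + (Y - y0) * ((β - α) + (q - p) * y1 - μ) := by ring
    have h3 : 0 ≤ (y1 - Y) * ((β - α) + (q - p) * y0 - μ) := mul_nonneg (by linarith) (by linarith)
    have h4 : 0 ≤ (Y - y0) * ((β - α) + (q - p) * y1 - μ) := mul_nonneg (by linarith) (by linarith)
    have h5 : 0 ≤ (y1 - y0) * ((β - α) + (q - p) * Y - μ) := by rw [e1]; linarith
    have := nonneg_of_mul_nonneg_right h5 hh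
    linarith
  obtain ⟨m, hm⟩ := exists_nat_gt (W * (y1 - y0) / μ)
  have hm0 : 0 < m := by
    rcases Nat.eq_zero_or_pos m with h0 | h0
    · rw [h0] at hm
      have : 0 ≤ W * (y1 - y0) / μ := by positivity
      norm_num at hm
      linarith
    · exact h0
  have hmq : (0:ℚ) < m := by exact_mod_cast hm0
  obtain ⟨δ, hδ⟩ : ∃ δ : ℚ, δ = (y1 - y0) / m := ⟨_, rfl⟩
  have hδ0 : 0 < δ := by rw [hδ]; positivity
  have hWδ : W * δ < μ := by
    rw [hδ]
    rw [div_lt_iff₀ hμ] at hm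
    rw [← mul_div_assoc, div_lt_iff₀ hmq]
    linarith
  have hmδ : (m:ℚ) * δ = y1 - y0 := by rw [hδ]; field_simp
  have key : ∀ j : ℕ, 1 ≤ j → j ≤ m → Tl (rs a) (Rg z0 u v (St α p β q y0 ((y0 + j * δ : ℚ)))) := by
    intro j hj1
    induction j, hj1 using Nat.le_induction with
    | base =>
      intro hjm
      have e1 : y0 + ((1:ℕ):ℚ) * δ = y0 + δ := by push_cast; ring
      rw [e1]
      have hle : y0 + δ ≤ y1 := by
        have : (1:ℚ) * δ ≤ m * δ := mul_le_mul_of_nonneg_right (by exact_mod_cast hjm) hδ0.le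
        linarith
      apply H α β y0 (y0 + δ) (by linarith)
      · have := hL y0 (le_refl _) hy.le
        have e2 : W * (y0 + δ - y0) = W * δ := by ring
        rw [e2]
        have e3 : (β + q * y0) - (α + p * y0) = (β - α) + (q - p) * y0 := by ring
        rw [e3]; linarith
      · have := hL (y0 + δ) (by linarith) hle
        have e2 : W * (y0 + δ - y0) = W * δ := by ring
        rw [e2]
        have e3 : (β + q * (y0 + δ)) - (α + p * (y0 + δ)) = (β - α) + (q - p) * (y0 + δ) := by ring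
        rw [e3]; linarith
    | succ j hj ih =>
      intro hjm
      have ih' := ih (by omega)
      have hjδ : (0:ℚ) ≤ j * δ := by positivity
      have hle : y0 + ((j+1:ℕ):ℚ) * δ ≤ y1 := by
        have : ((j+1:ℕ):ℚ) * δ ≤ m * δ := mul_le_mul_of_nonneg_right (by exact_mod_cast hjm) hδ0.le
        linarith
      have hstep : y0 + ((j+1:ℕ):ℚ) * δ = y0 + j * δ + δ := by push_cast; ring
      have hrest : Tl (rs a) (Rg z0 u v
          (St α p β q ((y0 + j * δ : ℚ)) ((y0 + ((j+1:ℕ):ℚ) * δ : ℚ)))) := by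
        apply H α β (y0 + j * δ) (y0 + ((j+1:ℕ):ℚ) * δ) (by linarith)
        · have := hL (y0 + j * δ) (by linarith) (by linarith)
          have e2 : W * (y0 + ((j+1:ℕ):ℚ) * δ - (y0 + j * δ)) = W * δ := by push_cast; ring
          rw [e2]
          have e3 : (β + q * (y0 + j * δ)) - (α + p * (y0 + j * δ))
            = (β - α) + (q - p) * (y0 + j * δ) := by ring
          rw [e3]; linarith
        · have := hL (y0 + ((j+1:ℕ):ℚ) * δ) (by linarith) hle
          have e2 : W * (y0 + ((j+1:ℕ):ℚ) * δ - (y0 + j * δ)) = W * δ := by push_cast; ring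
          rw [e2]
          have e3 : (β + q * (y0 + ((j+1:ℕ):ℚ) * δ)) - (α + p * (y0 + ((j+1:ℕ):ℚ) * δ))
            = (β - α) + (q - p) * (y0 + ((j+1:ℕ):ℚ) * δ) := by ring
          rw [e3]; linarith
      have hU := Tl.union ih' hrest (by
        apply sep hF.crne 0 1 (-((y0 + j * δ : ℚ):ℝ)) (Or.inr one_ne_zero)
        · rintro X Y ⟨c1, c2, c3⟩
          linarith
        · rintro X Y ⟨c1, c2, c3, c4⟩
          linarith)
      rw [← Rg_or] at hU
      rwa [Rg_congr] at hU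
      intro X Y
      have d1 : (y0:ℝ) ≤ ((y0 + j * δ : ℚ):ℝ) := by
        have : y0 ≤ y0 + j * δ := by linarith
        exact_mod_cast this
      have d2 : ((y0 + j * δ : ℚ):ℝ) ≤ ((y0 + ((j+1:ℕ):ℚ) * δ : ℚ):ℝ) := by
        have : y0 + j * δ ≤ y0 + ((j+1:ℕ):ℚ) * δ := by linarith
        exact_mod_cast this
      unfold St
      constructor
      · rintro (⟨c1, c2, c3, c4⟩ | ⟨c1, c2, c3, c4⟩)
        · exact ⟨c1, by linarith, c3, c4⟩
        · exact ⟨by linarith, c2, c3, c4⟩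
      · rintro ⟨c1, c2, c3, c4⟩
        rcases le_total Y (((y0 + j * δ : ℚ)):ℝ) with h5 | h5
        · exact Or.inl ⟨c1, h5, c3, c4⟩
        · exact Or.inr ⟨h5, c2, c3, c4⟩
  have := key m hm0 (le_refl _)
  rwa [show y0 + (m:ℚ) * δ = y1 by rw [hmδ]; ring] at this

theorem TileBy.iUnion {b : Fin 3 → ℝ} {κ : Type} [Fintype κ] {S : κ → Set ℂ}
    (h : ∀ i, TileBy b (S i))
    (hd : Pairwise fun i j => Disjoint (interior (S i)) (interior (S j))) :
    TileBy b (⋃ i, S i) := by
  choose ι hι Q a1 a2 a3 a4 using h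
  have hS : ∀ i j, tri (Q i j) ⊆ S i := fun i j => by
    rw [← a3 i]; exact subset_iUnion (fun j => tri (Q i j)) j
  refine ⟨Σ i, ι i, inferInstance, fun x => Q x.1 x.2, fun x => a1 _ _, fun x => a2 _ _, ?_, ?_⟩
  · rw [iUnion_sigma]
    simp only [a3]
  · rintro ⟨i, x⟩ ⟨j, y⟩ hxy
    by_cases hij : i = j
    · subst hij
      apply a4 i
      intro h
      apply hxy
      have h' : x = y := h
      rw [h']
    · exact (hd hij).mono (interior_mono (hS i x)) (interior_mono (hS j y))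

theorem Tl.iUnion {a : Fin 3 → ℝ} {κ : Type} [Fintype κ] {S : κ → Set ℂ} (h : ∀ i, Tl a (S i))
    (hd : Pairwise fun i j => Disjoint (interior (S i)) (interior (S j))) : Tl a (⋃ i, S i) := by
  choose k0 h1 h2 using h
  refine ⟨∏ i, k0 i, Finset.prod_pos (fun i _ => h1 i), fun k hk hd' => ?_⟩
  exact TileBy.iUnion (fun i => h2 i k hk ((Finset.dvd_prod_of_mem k0 (Finset.mem_univ i)).trans hd'))
    hd

theorem Tl.union3 {a : Fin 3 → ℝ} {S T R : Set ℂ} (h1 : Tl a S) (h2 : Tl a T) (h3 : Tl a R)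
    (d12 : Disjoint (interior S) (interior T)) (d13 : Disjoint (interior S) (interior R))
    (d23 : Disjoint (interior T) (interior R)) : Tl a (S ∪ T ∪ R) := by
  have := Tl.iUnion (a := a) (κ := Fin 3) (S := ![S, T, R])
    (by intro i; fin_cases i; exacts [h1, h2, h3])
    (by
      intro i j hij
      fin_cases i <;> fin_cases j
      · exact absurd rfl hij
      · exact d12
      · exact d13
      · exact d12.symm
      · exact absurd rfl hij
      · exact d23
      · exact d13.symm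
      · exact d23.symm
      · exact absurd rfl hij)
  convert this using 1
  ext z
  simp [Fin.exists_fin_succ, or_assoc]

/-- the triangle `U = (0,0)`, `W = (w,0)`, `V = (vx,vy)` from `UGV`, `GHV` and a trapezoid -/
theorem assemble (hF : MFr e lam u v) (ha : ∀ j, 0 < a j) {w q vx vy p gx gy hx : ℚ}
    (hw : 0 < w) (hg0 : 0 < gy) (hg1 : gy < vy) (hvx : vx = w + q * vy) (hgx : gx = p * gy)
    (hhx : hx = w + q * gy) (hD1 : vx < p * vy) (hD2 : gx < hx)
    (σ τ : Equiv.Perm (Fin 3)) {ρ ρ' : ℚ} (hρ : 0 < ρ) (hρ' : 0 < ρ')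
    (s0 : (gx - vx)^2 + e * (gy - vy)^2 = (ρ * a (σ 0))^2)
    (s1 : (vx - 0)^2 + e * (vy - 0)^2 = (ρ * a (σ 1))^2)
    (s2 : (0 - gx)^2 + e * (0 - gy)^2 = (ρ * a (σ 2))^2)
    (t0 : (hx - vx)^2 + e * (gy - vy)^2 = (ρ' * a (τ 0))^2)
    (t1 : (vx - gx)^2 + e * (vy - gy)^2 = (ρ' * a (τ 1))^2)
    (t2 : (gx - hx)^2 + e * (gy - gy)^2 = (ρ' * a (τ 2))^2)
    (hgood : Good a z0 u v p q) :
    Tl (rs a) (tri ![fr z0 u v 0 0, fr z0 u v w 0, fr z0 u v vx vy]) := by
  have hw' : (0:ℝ) < w := by exact_mod_cast hw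
  have hg0' : (0:ℝ) < gy := by exact_mod_cast hg0
  have hg1' : (gy:ℝ) < vy := by exact_mod_cast hg1
  have hvx' : (vx:ℝ) = w + q * vy := by exact_mod_cast hvx
  have hgx' : (gx:ℝ) = p * gy := by exact_mod_cast hgx
  have hhx' : (hx:ℝ) = w + q * gy := by exact_mod_cast hhx
  have hD1' : (vx:ℝ) < p * vy := by exact_mod_cast hD1
  have hD2' : (gx:ℝ) < hx := by exact_mod_cast hD2
  have hvy' : (0:ℝ) < vy := by linarith
  have D1 : (0:ℝ) < (gx - 0) * (vy - 0) - (vx - 0) * (gy - 0) := by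
    have : ((gx:ℝ) - 0) * (vy - 0) - (vx - 0) * (gy - 0) = gy * (p * vy - vx) := by
      rw [hgx']; ring
    rw [this]; exact mul_pos hg0' (by linarith)
  have D2 : (0:ℝ) < (hx - gx) * (vy - gy) - (vx - gx) * (gy - gy) := by
    have : ((hx:ℝ) - gx) * (vy - gy) - (vx - gx) * (gy - gy) = (hx - gx) * (vy - gy) := by ring
    rw [this]; exact mul_pos (by linarith) (by linarith)
  have k1 := Tl_tri_fr (z0 := z0) (a := a) hF D1 ha σ hρ (by exact_mod_cast s0)
    (by exact_mod_cast s1) (by exact_mod_cast s2)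
  have k2 := Tl_tri_fr (z0 := z0) (a := a) hF D2 ha τ hρ' (by exact_mod_cast t0)
    (by exact_mod_cast t1) (by exact_mod_cast t2)
  have k3 := hgood.trap hF (α := 0) (β := w) hg0 (by simpa using hw)
    (by
      have : w + q * gy - (0 + p * gy) = hx - gx := by rw [hhx, hgx]; ring
      rw [this]; linarith)
  have hU := Tl.union3 k1 k2 k3 (by
      apply Disjoint.symm
      apply sep hF.crne (-(vy - gy)) (vx - gx) (-(vx-gx)*gy + gx*(vy-gy))
        (Or.inl (by linarith))
      · rintro X Y ⟨c1, c2, c3⟩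
        linarith
      · rintro X Y ⟨c1, c2, c3⟩
        linarith)
    (by
      apply sep hF.crne 1 (-p) 0 (Or.inl one_ne_zero)
      · rintro X Y ⟨c1, c2, c3⟩
        have : 0 ≤ gy * (p * Y - X) := by rw [hgx'] at c1; linarith
        have := nonneg_of_mul_nonneg_right this hg0'
        linarith
      · rintro X Y ⟨c1, c2, c3, c4⟩
        push_cast at c3
        linarith)
    (by
      apply Disjoint.symm
      apply sep hF.crne 0 1 (-gy) (Or.inr one_ne_zero)
      · rintro X Y ⟨c1, c2, c3, c4⟩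
        linarith
      · rintro X Y ⟨c1, c2, c3⟩
        have e1 : ((hx:ℝ) - gx) * (Y - gy) - (X - gx) * (gy - gy) = (hx - gx) * (Y - gy) := by ring
        rw [e1] at c1
        have := nonneg_of_mul_nonneg_right c1 (by linarith)
        linarith)
  rw [← Rg_or, ← Rg_or] at hU
  rw [tri_fr hF.crne (by
    have : ((w:ℝ) - 0) * (vy - 0) - (vx - 0) * (0 - 0) = w * vy := by ring
    rw [this]; positivity)]
  rwa [Rg_congr] at hU
  intro X Y
  -- notation
  have eA : ((gx:ℝ) - 0) * (Y - 0) - (X - 0) * (gy - 0) = gy * (p * Y - X) := by rw [hgx']; ring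
  have eC : ((0:ℝ) - vx) * (Y - vy) - (X - vx) * (0 - vy) = vy * X - vx * Y := by ring
  have eD : ((hx:ℝ) - gx) * (Y - gy) - (X - gx) * (gy - gy) = (hx - gx) * (Y - gy) := by ring
  have eE : ((vx:ℝ) - hx) * (Y - gy) - (X - hx) * (vy - gy) = (vy - gy) * (w + q * Y - X) := by
    rw [hvx', hhx']; ring
  have eF : ((gx:ℝ) - vx) * (Y - vy) - (X - vx) * (gy - vy)
      = -((vx - gx) * (Y - gy) - (X - gx) * (vy - gy)) := by ring
  have eT1 : ((w:ℝ) - 0) * (Y - 0) - (X - 0) * (0 - 0) = w * Y := by ring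
  have eT2 : ((vx:ℝ) - w) * (Y - 0) - (X - w) * (vy - 0) = vy * (w + q * Y - X) := by
    rw [hvx']; ring
  rw [eA, eC, eD, eE, eF, eT1, eT2]
  set Bq := ((vx:ℝ) - gx) * (Y - gy) - (X - gx) * (vy - gy) with hB
  unfold St
  push_cast
  constructor
  · rintro ((⟨c1, c2, c3⟩ | ⟨c1, c2, c3⟩) | ⟨c1, c2, c3, c4⟩)
    · -- UGV
      have hD : gy * (p * vy - vx) = gy * (p * Y - X) + Bq + (vy * X - vx * Y) := by
        rw [hB, hgx']; ring
      have hDpos : (0:ℝ) < gy * (p * vy - vx) := mul_pos hg0' (by linarith)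
      refine ⟨?_, ?_, c3⟩
      · have e1 : (gy * (p * vy - vx)) * Y = (gy * (p * Y - X)) * vy + (vy * X - vx * Y) * gy := by
          ring
        have e2 : 0 ≤ (gy * (p * vy - vx)) * Y := by
          rw [e1]
          exact add_nonneg (mul_nonneg c1 hvy'.le) (mul_nonneg c3 hg0'.le)
        exact mul_nonneg hw'.le (nonneg_of_mul_nonneg_right e2 hDpos)
      · have e1 : (gy * (p * vy - vx)) * (w + q * Y - X) = (vy * X - vx * Y) * (hx - gx) + Bq * w := by
          have h1 : (gy * (p * vy - vx)) * (w + q * Y - X)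
            = (gy * (p * vy - vx)) * w + q * ((gy * (p * vy - vx)) * Y) - (gy * (p * vy - vx)) * X := by
            ring
          rw [hB, hhx', hgx', hvx']; ring
        have e2 : 0 ≤ (gy * (p * vy - vx)) * (w + q * Y - X) := by
          rw [e1]
          exact add_nonneg (mul_nonneg c3 (by linarith)) (mul_nonneg c2 hw'.le)
        exact mul_nonneg hvy'.le (nonneg_of_mul_nonneg_right e2 hDpos)
    · -- GHV
      have h1 : 0 ≤ Y - gy := nonneg_of_mul_nonneg_right c1 (by linarith)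
      have h2 : 0 ≤ w + q * Y - X := nonneg_of_mul_nonneg_right c2 (by linarith)
      refine ⟨mul_nonneg hw'.le (by linarith), mul_nonneg hvy'.le h2, ?_⟩
      have hDpos : 0 < ((hx:ℝ) - gx) * (vy - gy) := mul_pos (by linarith) (by linarith)
      have e1 : (((hx:ℝ) - gx) * (vy - gy)) * (vy * X - vx * Y)
          = ((vy - gy) * (w + q * Y - X)) * (gy * (p * vy - vx))
            + (-Bq) * (vy * hx - vx * gy) := by
        rw [hB, hhx', hgx', hvx']; ring
      have e3 : 0 ≤ (vy:ℝ) * hx - vx * gy := by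
        have h5 : (vy:ℝ) * hx - vx * gy = vy * (hx - gx) + gy * (p * vy - vx) := by
          rw [hgx']; ring
        rw [h5]
        exact add_nonneg (mul_nonneg hvy'.le (by linarith)) (mul_nonneg hg0'.le (by linarith))
      have e2 : 0 ≤ (((hx:ℝ) - gx) * (vy - gy)) * (vy * X - vx * Y) := by
        rw [e1]
        exact add_nonneg (mul_nonneg c2 (mul_nonneg hg0'.le (by linarith)))
          (mul_nonneg c3 e3)
      exact nonneg_of_mul_nonneg_right e2 hDpos
    · -- trapezoid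
      refine ⟨mul_nonneg hw'.le c1, mul_nonneg hvy'.le (by linarith), ?_⟩
      have h1 : vy * (p * Y) ≤ vy * X := mul_le_mul_of_nonneg_left (by linarith) hvy'.le
      have h2 : 0 ≤ (p * vy - vx) * Y := mul_nonneg (by linarith) c1
      linarith
  · rintro ⟨c1, c2, c3⟩
    have hY : 0 ≤ Y := nonneg_of_mul_nonneg_right c1 hw'
    have hX : 0 ≤ w + q * Y - X := nonneg_of_mul_nonneg_right c2 hvy'
    rcases le_total Y gy with h1 | h1
    · rcases le_total (p * Y) X with h2 | h2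
      · exact Or.inr ⟨hY, h1, by linarith, by linarith⟩
      · refine Or.inl (Or.inl ⟨mul_nonneg hg0'.le (by linarith), ?_, c3⟩)
        have h3 : 0 ≤ (p * Y - X) * (vy - gy) := mul_nonneg (by linarith) (by linarith)
        have h4 : 0 ≤ (gy - Y) * (p * vy - vx) := mul_nonneg (by linarith) (by linarith)
        have h5 : Bq = (p * Y - X) * (vy - gy) + (gy - Y) * (p * vy - vx) := by
          rw [hB, hgx']; ring
        rw [h5]; exact add_nonneg h3 h4
    · rcases le_total 0 Bq with h2 | h2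
      · refine Or.inl (Or.inl ⟨?_, h2, c3⟩)
        have h3 : (p * Y - X) * (vy - gy) = Bq + (Y - gy) * (p * vy - vx) := by
          rw [hB, hgx']; ring
        have h4 : 0 ≤ (Y - gy) * (p * vy - vx) := mul_nonneg (by linarith) (by linarith)
        have h5 : 0 ≤ (p * Y - X) * (vy - gy) := by rw [h3]; linarith
        exact mul_nonneg hg0'.le (nonneg_of_mul_nonneg_left h5 (by linarith))
      · exact Or.inl (Or.inr ⟨mul_nonneg (by linarith) (by linarith),
          mul_nonneg (by linarith) hX, by linarith⟩)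

end

end Pool.Agent.Helper5.SqH
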