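import Pool.Agent.Helper5.SqH.Lattice

/-!
Rational tiles, metric frames, strips.
-/

open Set Complex Filter Topology

namespace Pool.Agent.Helper5.SqH
open Pool.Agent.Helper27.Sq

/-- a rational tile: sides `a`, cosines `C`, `sin² = e a²` -/
structure RTile (a C : Fin 3 → ℚ) (e : ℚ) : Prop where
  apos : ∀ j, 0 < a j
  epos : 0 < e
  sq : ∀ j, C j ^ 2 + e * a j ^ 2 = 1
  add : ∀ σ : Equiv.Perm (Fin 3), a (σ 2) = a (σ 0) * C (σ 1) + a (σ 1) * C (σ 0)
  cos : ∀ σ : Equiv.Perm (Fin 3), a (σ 0) ^ 2 =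
    a (σ 1) ^ 2 + a (σ 2) ^ 2 - 2 * a (σ 1) * a (σ 2) * C (σ 0)

/-- the real sides -/
def rs (a : Fin 3 → ℚ) : Fin 3 → ℝ := fun j => (a j : ℝ)

/-- metric frame: `|x u + y v|² = lam² (x² + e y²)` -/
structure MFr (e lam : ℚ) (u v : ℂ) : Prop where
  lpos : 0 < lam
  crne : cr u v ≠ 0
  norm : ∀ x y : ℝ, ‖(x:ℂ) * u + y * v‖ ^ 2 = lam ^ 2 * (x ^ 2 + e * y ^ 2)

theorem MFr.dist {e lam : ℚ} {z0 u v : ℂ} (hF : MFr e lam u v) {x y x' y' r : ℝ} (hr : 0 ≤ r)
    (h : (x - x')^2 + e * (y - y')^2 = r^2) :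
    dist (fr z0 u v x y) (fr z0 u v x' y') = lam * r := by
  have hl : (0:ℝ) < lam := by exact_mod_cast hF.lpos
  rw [dist_eq_norm]
  have e1 : fr z0 u v x y - fr z0 u v x' y' = ((x - x' : ℝ):ℂ) * u + ((y - y' : ℝ):ℂ) * v := by
    unfold fr; push_cast; ring
  rw [e1]
  have h1 := hF.norm (x - x') (y - y')
  rw [h] at h1
  have h2 : ‖((x - x' : ℝ):ℂ) * u + ((y - y' : ℝ):ℂ) * v‖ ^ 2 = (lam * r)^2 := by
    rw [h1]; ring
  exact (pow_left_inj₀ (norm_nonneg _) (by positivity) two_ne_zero).1 h2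

/-- trapezoid between two lines and two horizontal lines -/
def St (α p β q y0 y1 : ℝ) : ℝ → ℝ → Prop :=
  fun X Y => y0 ≤ Y ∧ Y ≤ y1 ∧ α + p * Y ≤ X ∧ X ≤ β + q * Y

/-- the slope `cot / η` -/
def sl (a C : Fin 3 → ℚ) (j : Fin 3) : ℚ := C j / a j

section
variable {a C : Fin 3 → ℚ} {e lam : ℚ} {z0 u v : ℂ}

theorem sl_add (hT : RTile a C e) (σ : Equiv.Perm (Fin 3)) :
    sl a C (σ 0) + sl a C (σ 1) = a (σ 2) / (a (σ 0) * a (σ 1)) := by
  have h0 := (hT.apos (σ 0)).ne'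
  have h1 := (hT.apos (σ 1)).ne'
  unfold sl
  rw [hT.add σ]
  field_simp
  ring

theorem sl_add_pos (hT : RTile a C e) (σ : Equiv.Perm (Fin 3)) :
    0 < sl a C (σ 0) + sl a C (σ 1) := by
  rw [sl_add hT]
  have h0 := (hT.apos (σ 0))
  have h1 := (hT.apos (σ 1))
  have h2 := (hT.apos (σ 2))
  positivity

theorem sl_sq (hT : RTile a C e) (j : Fin 3) : sl a C j ^ 2 + e = (1 / a j) ^ 2 := by
  have h0 := (hT.apos j).ne'
  have h1 := hT.sq j
  unfold sl
  field_simp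
  linarith

theorem perm_inj (σ : Equiv.Perm (Fin 3)) : True := trivial

theorem side3 (A B D : ℂ) : side ![A, B, D] = ![dist B D, dist D A, dist A B] := by
  have f0 : ((1:Fin 3) + 1 = 2) := rfl
  have f1 : ((1:Fin 3) + 2 = 0) := rfl
  have f2 : ((2:Fin 3) + 1 = 0) := rfl
  have f3 : ((2:Fin 3) + 2 = 1) := rfl
  have f4 : ((0:Fin 3) + 1 = 1) := rfl
  have f5 : ((0:Fin 3) + 2 = 2) := rfl
  funext k
  fin_cases k
  · simp [side, f4, f5]
  · simp [side, f0, f1]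
  · simp [side, f2, f3]

/-- a triangle with vertices in a metric frame, similar to the tile -/
theorem Tl_tri_fr (hF : MFr e lam u v) {x0 y0 x1 y1 x2 y2 : ℝ}
    (hD : 0 < (x1-x0)*(y2-y0) - (x2-x0)*(y1-y0)) (ha : ∀ j, 0 < a j)
    (σ : Equiv.Perm (Fin 3)) {ρ : ℚ} (hρ : 0 < ρ)
    (h0 : (x1-x2)^2 + e * (y1-y2)^2 = (ρ * a (σ 0) : ℝ)^2)
    (h1 : (x2-x0)^2 + e * (y2-y0)^2 = (ρ * a (σ 1) : ℝ)^2)
    (h2 : (x0-x1)^2 + e * (y0-y1)^2 = (ρ * a (σ 2) : ℝ)^2) :
    Tl (rs a) (Rg z0 u v (fun X Y => 0 ≤ (x1-x0)*(Y-y0) - (X-x0)*(y1-y0) ∧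
        0 ≤ (x2-x1)*(Y-y1) - (X-x1)*(y2-y1) ∧ 0 ≤ (x0-x2)*(Y-y2) - (X-x2)*(y0-y2))) := by
  rw [← tri_fr hF.crne hD]
  have hρ' : (0:ℝ) < ρ := by exact_mod_cast hρ
  have ha' : ∀ j, (0:ℝ) < a j := fun j => by exact_mod_cast ha j
  refine Tl_tri (ai_fr hF.crne hD.ne') σ (mul_pos hF.lpos hρ) ?_
  intro k
  rw [side3]
  have b0 := ha' (σ 0)
  have b1 := ha' (σ 1)
  have b2 := ha' (σ 2)
  fin_cases k
  · simp only [Fin.zero_eta, Matrix.cons_val_zero]
    rw [hF.dist (r := ρ * a (σ 0)) (by positivity) h0]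
    unfold rs; push_cast; ring
  · simp only [Fin.mk_one, Matrix.cons_val_one]
    rw [hF.dist (r := ρ * a (σ 1)) (by positivity) h1]
    unfold rs; push_cast; ring
  · simp only [Fin.reduceFinMk, Matrix.cons_val]
    rw [hF.dist (r := ρ * a (σ 2)) (by positivity) h2]
    unfold rs; push_cast; ring

/-- upright triangles -/
theorem Tl_up (hT : RTile a C e) (hF : MFr e lam u v) (σ : Equiv.Perm (Fin 3)) {α y0 y1 : ℚ}
    (hy : y0 < y1) : Tl (rs a) (Rg z0 u v (fun X Y => (y0:ℝ) ≤ Y ∧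
      α + (sl a C (σ 0)) * Y ≤ X ∧
      X ≤ (α + (sl a C (σ 0) + sl a C (σ 1)) * y1 : ℝ) - (sl a C (σ 1)) * Y)) := by
  obtain ⟨p0, hp0⟩ : ∃ p0 : ℚ, p0 = sl a C (σ 0) := ⟨_, rfl⟩
  obtain ⟨p1, hp1⟩ : ∃ p1 : ℚ, p1 = sl a C (σ 1) := ⟨_, rfl⟩
  have hs := sl_add hT σ
  have hs2 := sl_add_pos hT σ
  have hq0 := sl_sq hT (σ 0)
  have hq1 := sl_sq hT (σ 1)
  rw [← hp0, ← hp1] at *
  have a0 := hT.apos (σ 0)
  have a1 := hT.apos (σ 1)
  have a2 := hT.apos (σ 2)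
  have hs2' : (0:ℝ) < p0 + p1 := by exact_mod_cast hs2
  have hy' : (y0:ℝ) < y1 := by exact_mod_cast hy
  have hhy : (0:ℝ) < y1 - y0 := by linarith
  have hq0' : (p0:ℝ)^2 + e = (1 / a (σ 0))^2 := by exact_mod_cast hq0
  have hq1' : (p1:ℝ)^2 + e = (1 / a (σ 1))^2 := by exact_mod_cast hq1
  have hs' : (p0:ℝ) + p1 = a (σ 2) / (a (σ 0) * a (σ 1)) := by exact_mod_cast hs
  have a0' : (0:ℝ) < a (σ 0) := by exact_mod_cast a0
  have a1' : (0:ℝ) < a (σ 1) := by exact_mod_cast a1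
  have key := Tl_tri_fr (z0 := z0) (a := a) hF (x0 := α + p0 * y0) (y0 := y0)
    (x1 := α + (p0 + p1) * y1 - p1 * y0) (y1 := y0)
    (x2 := α + p0 * y1) (y2 := y1) (σ := σ) (ρ := (y1 - y0) / (a (σ 0) * a (σ 1)))
    (by
      have : ((α:ℝ) + (p0 + p1) * y1 - p1 * y0 - (α + p0 * y0)) * (y1 - y0)
          - (α + p0 * y1 - (α + p0 * y0)) * (y0 - y0) = (p0 + p1) * (y1 - y0)^2 := by ring
      rw [this]; positivity)
    hT.apos
    (div_pos (by linarith) (by positivity))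
    (by
      push_cast
      have : ((α:ℝ) + (p0 + p1) * y1 - p1 * y0 - (α + p0 * y1))^2 + e * (y0 - y1)^2
          = (p1^2 + e) * (y1 - y0)^2 := by ring
      rw [this, hq1']; field_simp)
    (by
      push_cast
      have : ((α:ℝ) + p0 * y1 - (α + p0 * y0))^2 + e * (y1 - y0)^2
          = (p0^2 + e) * (y1 - y0)^2 := by ring
      rw [this, hq0']; field_simp)
    (by
      push_cast
      have : ((α:ℝ) + p0 * y0 - (α + (p0 + p1) * y1 - p1 * y0))^2 + e * (y0 - y0)^2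
          = ((p0 + p1) * (y1 - y0))^2 := by ring
      rw [this, hs']; field_simp)
  rwa [Rg_congr] at key
  intro X Y
  constructor
  · rintro ⟨h1, h2, h3⟩
    have e1 : ((α:ℝ) + (p0 + p1) * y1 - p1 * y0 - (α + p0 * y0)) * (Y - y0)
        - (X - (α + p0 * y0)) * (y0 - y0) = (p0 + p1) * (y1 - y0) * (Y - y0) := by ring
    rw [e1] at h1
    have e2 : ((α:ℝ) + p0 * y1 - (α + (p0 + p1) * y1 - p1 * y0)) * (Y - y0)
        - (X - (α + (p0 + p1) * y1 - p1 * y0)) * (y1 - y0)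
        = (y1 - y0) * (α + (p0+p1) * y1 - p1 * Y - X) := by ring
    rw [e2] at h2
    have e3 : ((α:ℝ) + p0 * y0 - (α + p0 * y1)) * (Y - y1) - (X - (α + p0 * y1)) * (y0 - y1)
        = (y1 - y0) * (X - (α + p0 * Y)) := by ring
    rw [e3] at h3
    have b1 := nonneg_of_mul_nonneg_right h1 (by positivity)
    have b2 := nonneg_of_mul_nonneg_right h2 hhy
    have b3 := nonneg_of_mul_nonneg_right h3 hhy
    refine ⟨by linarith, by linarith, by linarith⟩
  · rintro ⟨h1, h2, h3⟩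
    refine ⟨?_, ?_, ?_⟩
    · have e1 : ((α:ℝ) + (p0 + p1) * y1 - p1 * y0 - (α + p0 * y0)) * (Y - y0)
        - (X - (α + p0 * y0)) * (y0 - y0) = (p0 + p1) * (y1 - y0) * (Y - y0) := by ring
      rw [e1]
      have : 0 ≤ Y - y0 := by linarith
      positivity
    · have e2 : ((α:ℝ) + p0 * y1 - (α + (p0 + p1) * y1 - p1 * y0)) * (Y - y0)
        - (X - (α + (p0 + p1) * y1 - p1 * y0)) * (y1 - y0)
        = (y1 - y0) * (α + (p0+p1) * y1 - p1 * Y - X) := by ring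
      rw [e2]
      exact mul_nonneg hhy.le (by linarith)
    · have e3 : ((α:ℝ) + p0 * y0 - (α + p0 * y1)) * (Y - y1) - (X - (α + p0 * y1)) * (y0 - y1)
        = (y1 - y0) * (X - (α + p0 * Y)) := by ring
      rw [e3]
      exact mul_nonneg hhy.le (by linarith)

/-- inverted triangles -/
theorem Tl_down (hT : RTile a C e) (hF : MFr e lam u v) (σ : Equiv.Perm (Fin 3)) {α y0 y1 : ℚ}
    (hy : y0 < y1) : Tl (rs a) (Rg z0 u v (fun X Y => Y ≤ (y1:ℝ) ∧
      α - (sl a C (σ 0)) * Y ≤ X ∧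
      X ≤ (α - (sl a C (σ 0) + sl a C (σ 1)) * y0 : ℝ) + (sl a C (σ 1)) * Y)) := by
  obtain ⟨p0, hp0⟩ : ∃ p0 : ℚ, p0 = sl a C (σ 0) := ⟨_, rfl⟩
  obtain ⟨p1, hp1⟩ : ∃ p1 : ℚ, p1 = sl a C (σ 1) := ⟨_, rfl⟩
  have hs := sl_add hT σ
  have hs2 := sl_add_pos hT σ
  have hq0 := sl_sq hT (σ 0)
  have hq1 := sl_sq hT (σ 1)
  rw [← hp0, ← hp1] at *
  have a0 := hT.apos (σ 0)
  have a1 := hT.apos (σ 1)
  have a2 := hT.apos (σ 2)
  have hs2' : (0:ℝ) < p0 + p1 := by exact_mod_cast hs2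
  have hy' : (y0:ℝ) < y1 := by exact_mod_cast hy
  have hhy : (0:ℝ) < y1 - y0 := by linarith
  have hq0' : (p0:ℝ)^2 + e = (1 / a (σ 0))^2 := by exact_mod_cast hq0
  have hq1' : (p1:ℝ)^2 + e = (1 / a (σ 1))^2 := by exact_mod_cast hq1
  have hs' : (p0:ℝ) + p1 = a (σ 2) / (a (σ 0) * a (σ 1)) := by exact_mod_cast hs
  have a0' : (0:ℝ) < a (σ 0) := by exact_mod_cast a0
  have a1' : (0:ℝ) < a (σ 1) := by exact_mod_cast a1
  obtain ⟨τ, t0, t1, t2⟩ : ∃ τ : Equiv.Perm (Fin 3), τ 0 = σ 2 ∧ τ 1 = σ 1 ∧ τ 2 = σ 0 := by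
    refine ⟨(Equiv.swap 0 2).trans σ, ?_, ?_, ?_⟩
    · simp
    · rw [Equiv.trans_apply, Equiv.swap_apply_of_ne_of_ne (by decide) (by decide)]
    · simp
  have key := Tl_tri_fr (z0 := z0) (a := a) hF (x0 := α - p0 * y0) (y0 := y0)
    (x1 := α - (p0 + p1) * y0 + p1 * y1) (y1 := y1)
    (x2 := α - p0 * y1) (y2 := y1) (σ := τ)
    (ρ := (y1 - y0) / (a (σ 0) * a (σ 1)))
    (by
      have : ((α:ℝ) - (p0 + p1) * y0 + p1 * y1 - (α - p0 * y0)) * (y1 - y0)
          - (α - p0 * y1 - (α - p0 * y0)) * (y1 - y0) = (p0 + p1) * (y1 - y0)^2 := by ring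
      rw [this]; positivity)
    hT.apos
    (div_pos (by linarith) (by positivity))
    (by
      rw [t0]
      push_cast
      have : ((α:ℝ) - (p0 + p1) * y0 + p1 * y1 - (α - p0 * y1))^2 + e * (y1 - y1)^2
          = ((p0 + p1) * (y1 - y0))^2 := by ring
      rw [this, hs']; field_simp)
    (by
      rw [t1]
      push_cast
      have : ((α:ℝ) - p0 * y1 - (α - p0 * y0))^2 + e * (y1 - y0)^2
          = (p0^2 + e) * (y1 - y0)^2 := by ring
      rw [this, hq0']; field_simp)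
    (by
      rw [t2]
      push_cast
      have : ((α:ℝ) - p0 * y0 - (α - (p0 + p1) * y0 + p1 * y1))^2 + e * (y0 - y1)^2
          = (p1^2 + e) * (y1 - y0)^2 := by ring
      rw [this, hq1']; field_simp)
  rwa [Rg_congr] at key
  intro X Y
  have e1 : ((α:ℝ) - (p0 + p1) * y0 + p1 * y1 - (α - p0 * y0)) * (Y - y0)
      - (X - (α - p0 * y0)) * (y1 - y0) = (y1 - y0) * (α - (p0+p1)*y0 + p1 * Y - X) := by ring
  have e2 : ((α:ℝ) - p0 * y1 - (α - (p0 + p1) * y0 + p1 * y1)) * (Y - y1)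
      - (X - (α - (p0 + p1) * y0 + p1 * y1)) * (y1 - y1)
      = (p0 + p1) * (y1 - y0) * (y1 - Y) := by ring
  have e3 : ((α:ℝ) - p0 * y0 - (α - p0 * y1)) * (Y - y1) - (X - (α - p0 * y1)) * (y0 - y1)
      = (y1 - y0) * (X - (α - p0 * Y)) := by ring
  rw [e1, e2, e3]
  constructor
  · rintro ⟨h1, h2, h3⟩
    have b1 := nonneg_of_mul_nonneg_right h1 hhy
    have b2 := nonneg_of_mul_nonneg_right h2 (by positivity)
    have b3 := nonneg_of_mul_nonneg_right h3 hhy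
    refine ⟨by linarith, by linarith, by linarith⟩
  · rintro ⟨h1, h2, h3⟩
    refine ⟨mul_nonneg hhy.le (by linarith), ?_, mul_nonneg hhy.le (by linarith)⟩
    have : 0 ≤ y1 - Y := by linarith
    positivity

/-- a pair of slopes is good if all sufficiently flat strips with these slopes are tileable -/
def Good (a : Fin 3 → ℚ) (z0 u v : ℂ) (p q : ℚ) : Prop :=
  ∃ W : ℚ, 0 ≤ W ∧ ∀ α β y0 y1 : ℚ, y0 < y1 →
    W * (y1 - y0) < (β + q * y0) - (α + p * y0) → W * (y1 - y0) < (β + q * y1) - (α + p * y1) →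
    Tl (rs a) (Rg z0 u v (St α p β q y0 y1))

theorem good_par (hT : RTile a C e) (hF : MFr e lam u v) (σ : Equiv.Perm (Fin 3)) {s : ℚ}
    (hs : s = 1 ∨ s = -1) : Good a z0 u v (s * sl a C (σ 0)) (s * sl a C (σ 0)) := by
  refine ⟨0, le_refl _, fun α β y0 y1 hy h1 _ => ?_⟩
  have hl := hF.lpos
  have a0 := hT.apos (σ 0)
  have a1 := hT.apos (σ 1)
  have a2 := hT.apos (σ 2)
  have hab : 0 < β - α := by linarith
  obtain ⟨x0, hx0⟩ : ∃ x0 : ℚ, x0 = if s = 1 then α else β := ⟨_, rfl⟩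
  have hl' : (0:ℝ) < lam := by exact_mod_cast hl
  have a0' : (0:ℝ) < a (σ 0) := by exact_mod_cast a0
  have a1' : (0:ℝ) < a (σ 1) := by exact_mod_cast a1
  have a2' : (0:ℝ) < a (σ 2) := by exact_mod_cast a2
  have hs2 : (s:ℝ)^2 = 1 := by
    rcases hs with rfl | rfl <;> norm_num
  have hs0 : (s:ℝ) ≠ 0 := by
    intro h0; rw [h0] at hs2; norm_num at hs2
  -- the two vectors
  have hcr : cr (fr 0 u v (s * a (σ 2) / lam) 0) (fr 0 u v (s * a (σ 1) * C (σ 0) / lam)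
      (a (σ 1) * a (σ 0) / lam)) ≠ 0 := by
    have : cr (fr 0 u v (s * a (σ 2) / lam) 0) (fr 0 u v (s * a (σ 1) * C (σ 0) / lam)
      (a (σ 1) * a (σ 0) / lam)) = (s * a (σ 2) / lam) * (a (σ 1) * a (σ 0) / lam) * cr u v := by
      unfold cr fr
      simp only [Complex.add_re, Complex.add_im, Complex.re_ofReal_mul, Complex.im_ofReal_mul,
        Complex.zero_re, Complex.zero_im]
      ring
    rw [this]
    have hne := hF.crne
    have : (s * a (σ 2) / lam : ℝ) * (a (σ 1) * a (σ 0) / lam) ≠ 0 := by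
      have h3 : (a (σ 2) / lam : ℝ) * (a (σ 1) * a (σ 0) / lam) ≠ 0 := by positivity
      have h4 : (s * a (σ 2) / lam : ℝ) * (a (σ 1) * a (σ 0) / lam)
        = s * ((a (σ 2) / lam : ℝ) * (a (σ 1) * a (σ 0) / lam)) := by ring
      rw [h4]
      exact mul_ne_zero hs0 h3
    exact mul_ne_zero this hne
  have hsq : (C (σ 0) : ℝ)^2 + e * a (σ 0)^2 = 1 := by exact_mod_cast hT.sq (σ 0)
  have hcos : (a (σ 0) : ℝ)^2 = a (σ 1)^2 + a (σ 2)^2 - 2 * a (σ 1) * a (σ 2) * C (σ 0) := by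
    exact_mod_cast hT.cos σ
  have hz : fr 0 u v 0 0 = (0:ℂ) := by unfold fr; simp
  have hside : ∀ k, side ![0, fr 0 u v (s * a (σ 2) / lam) 0, fr 0 u v
      (s * a (σ 1) * C (σ 0) / lam) (a (σ 1) * a (σ 0) / lam)] k = rs a (σ k) := by
    intro k
    rw [side3]
    have g0 : dist (fr 0 u v (s * a (σ 2) / lam) 0) (fr 0 u v
      (s * a (σ 1) * C (σ 0) / lam) (a (σ 1) * a (σ 0) / lam)) = a (σ 0) := by
      rw [hF.dist (r := a (σ 0) / lam) (by positivity)]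
      · field_simp
      · have h5 : (s * a (σ 2) / lam - s * a (σ 1) * C (σ 0) / lam : ℝ)^2
            + e * (0 - a (σ 1) * a (σ 0) / lam)^2
            = (s^2 * (a (σ 2) - a (σ 1) * C (σ 0))^2 + e * (a (σ 1) * a (σ 0))^2) / lam^2 := by
          field_simp
          ring
        rw [h5, hs2, div_pow, hcos]
        congr 1
        linear_combination (a (σ 1) : ℝ)^2 * hsq
    have g1 : dist (fr 0 u v (s * a (σ 1) * C (σ 0) / lam) (a (σ 1) * a (σ 0) / lam)) 0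
        = a (σ 1) := by
      have := hF.dist (z0 := 0) (x := (s * a (σ 1) * C (σ 0) / lam)) (y := (a (σ 1) * a (σ 0) / lam))
        (x' := 0) (y' := 0) (r := a (σ 1) / lam) (by positivity) (by
          have h5 : (s * a (σ 1) * C (σ 0) / lam - 0 : ℝ)^2
            + e * (a (σ 1) * a (σ 0) / lam - 0)^2
            = (s^2 * (a (σ 1) * C (σ 0))^2 + e * (a (σ 1) * a (σ 0))^2) / lam^2 := by
            field_simp
            ring
          rw [h5, hs2, div_pow]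
          congr 1
          linear_combination (a (σ 1) : ℝ)^2 * hsq)
      rw [hz] at this
      rw [this]
      field_simp
    have g2 : dist 0 (fr 0 u v (s * a (σ 2) / lam) 0) = a (σ 2) := by
      have := hF.dist (z0 := 0) (x := 0) (y := 0)
        (x' := (s * a (σ 2) / lam)) (y' := 0) (r := a (σ 2) / lam) (by positivity) (by
          have h5 : (0 - s * a (σ 2) / lam : ℝ)^2 + e * (0 - 0)^2
            = (s^2 * a (σ 2)^2) / lam^2 := by
            field_simp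
            ring
          rw [h5, hs2, div_pow]
          ring)
      rw [hz] at this
      rw [this]
      field_simp
    rw [g0, g1, g2]
    unfold rs
    fin_cases k <;> simp
  have key := Tl_par (a := rs a) (z0 := fr z0 u v (x0 + s * sl a C (σ 0) * y0) y0) hcr σ hside
    (α := (β - α) * lam / a (σ 2)) (β := (y1 - y0) * lam / (a (σ 1) * a (σ 0)))
    (by positivity) (div_pos (mul_pos (by linarith) hl) (by positivity))
  rw [Rg_change hF.crne hcr (A := St α ((s * sl a C (σ 0) : ℚ)) β ((s * sl a C (σ 0) : ℚ)) y0 y1)]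
    at key
  · exact key
  · intro X Y
    unfold St
    push_cast
    have hslv : (sl a C (σ 0) : ℝ) = C (σ 0) / a (σ 0) := by unfold sl; push_cast; rfl
    rw [hslv]
    have c1 : (y0:ℝ) + X * 0 + Y * (a (σ 1) * a (σ 0) / lam) = y0 + Y * (a (σ 1) * a (σ 0) / lam) := by
      ring
    rw [c1]
    have c2 : ∀ t : ℝ, t + s * (C (σ 0) / a (σ 0)) * (y0 + Y * (a (σ 1) * a (σ 0) / lam))
        = t + s * (C (σ 0) / a (σ 0)) * y0 + Y * (s * a (σ 1) * C (σ 0) / lam) := by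
      intro t; field_simp; ring
    rw [c2, c2]
    have hw : (0:ℝ) < a (σ 1) * a (σ 0) / lam := by positivity
    have hx : (0:ℝ) < a (σ 2) / lam := by positivity
    have d1 : Y ≤ (y1 - y0) * lam / (a (σ 1) * a (σ 0)) ↔
        (y0:ℝ) + Y * (a (σ 1) * a (σ 0) / lam) ≤ y1 := by
      rw [le_div_iff₀ (by positivity)]
      constructor
      · intro hh
        have : Y * (a (σ 1) * a (σ 0) / lam) ≤ y1 - y0 := by
          rw [← mul_div_assoc, div_le_iff₀ hl']; exact hh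
        linarith
      · intro hh
        have : Y * (a (σ 1) * a (σ 0) / lam) ≤ y1 - y0 := by linarith
        rwa [← mul_div_assoc, div_le_iff₀ hl'] at this
    have d2 : 0 ≤ Y ↔ (y0:ℝ) ≤ y0 + Y * (a (σ 1) * a (σ 0) / lam) := by
      constructor
      · intro hh; have := mul_nonneg hh hw.le; linarith
      · intro hh
        have : 0 ≤ Y * (a (σ 1) * a (σ 0) / lam) := by linarith
        exact nonneg_of_mul_nonneg_left this hw
    have d3 : X ≤ (β - α) * lam / a (σ 2) ↔ X * (a (σ 2) / lam) ≤ β - α := by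
      rw [le_div_iff₀ a2', ← mul_div_assoc, div_le_iff₀ hl']
    have d4 : 0 ≤ X ↔ 0 ≤ X * (a (σ 2) / lam) := by
      constructor
      · intro hh; exact mul_nonneg hh hx.le
      · intro hh; exact nonneg_of_mul_nonneg_left hh hx
    rw [d1, d2, d3, d4]
    have hxs : X * (s * a (σ 2) / lam) = s * (X * (a (σ 2) / lam)) := by ring
    rw [hxs]
    set Z := X * (a (σ 2) / lam : ℝ) with hZ
    rcases hs with rfl | rfl
    · have hx0' : (x0:ℝ) = α := by rw [hx0]; simp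
      rw [hx0']
      push_cast
      constructor
      · rintro ⟨b1, b2, b3, b4⟩
        exact ⟨b3, b4, by linarith, by linarith⟩
      · rintro ⟨b1, b2, b3, b4⟩
        exact ⟨by linarith, by linarith, b1, b2⟩
    · have hx0' : (x0:ℝ) = β := by rw [hx0]; norm_num
      rw [hx0']
      push_cast
      constructor
      · rintro ⟨b1, b2, b3, b4⟩
        exact ⟨b3, b4, by linarith, by linarith⟩
      · rintro ⟨b1, b2, b3, b4⟩
        exact ⟨by linarith, by linarith, b1, b2⟩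

theorem aff_pos {c d y0 y1 Y : ℝ} (h0 : y0 < y1) (h1 : 0 < c + d * y0) (h2 : 0 < c + d * y1)
    (hY0 : y0 ≤ Y) (hY1 : Y ≤ y1) : 0 < c + d * Y := by
  have e1 : (y1 - y0) * (c + d * Y) = (y1 - Y) * (c + d * y0) + (Y - y0) * (c + d * y1) := by ring
  have h3 : 0 ≤ (y1 - Y) * (c + d * y0) := mul_nonneg (by linarith) h1.le
  have h4 : 0 ≤ (Y - y0) * (c + d * y1) := mul_nonneg (by linarith) h2.le
  have h5 : 0 < (y1 - Y) * (c + d * y0) + (Y - y0) * (c + d * y1) := by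
    rcases lt_or_ge Y y1 with h | h
    · have : 0 < (y1 - Y) * (c + d * y0) := mul_pos (by linarith) h1
      linarith
    · have : 0 < (Y - y0) * (c + d * y1) := mul_pos (by linarith) h2
      linarith
  rw [← e1] at h5
  exact (mul_pos_iff_of_pos_left (by linarith)).1 h5

end

end Pool.Agent.Helper5.SqH
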